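import Pool.Agent.Q53.CubicCurve.Normal

/-!
The case in which the tangent plane section is the union of a rational line and of two conjugate
lines through the point.
-/

set_option autoImplicit false

open Polynomial

namespace Q53.CubicCurve

section ring

variable {R : Type*} [CommRing R]

theorem G_smul (a : Coef R) (u y0 y1 y2 y3 : R) :
    G a (u * y0) (u * y1) (u * y2) (u * y3) = u ^ 3 * G a y0 y1 y2 y3 := by
  simp only [G]; ring

/-- A conic with a point. -/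
theorem conic_param (n00 n2 n3 v0 v1 v2 e1 e2 s : R)
    (h : v0 * e1 ^ 2 + v1 * e1 * e2 + v2 * e2 ^ 2 = 0) :
    let Nd := n00 + s * n2 + s ^ 2 * v0
    let Bb := (n2 * e1 + n3 * e2) + s * (2 * v0 * e1 + v1 * e2)
    let z := -Bb
    let x := Nd * e1 - Bb * s
    let y := Nd * e2
    n00 * z ^ 2 + z * (n2 * x + n3 * y) + (v0 * x ^ 2 + v1 * x * y + v2 * y ^ 2) = 0 := by
  intro Nd Bb z x y
  simp only [Nd, Bb, z, x, y]
  linear_combination (n00 + s * n2 + s ^ 2 * v0) ^ 2 * h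

/-- The points of the planes through the line. -/
theorem G_plane (a : Coef R) (h0 : a.c0 = 0) (h1 : a.c1 = 0) (h2 : a.c2 = 0) (h3 : a.c3 = 0)
    (q r z s t : R) :
    G a (-(r * z)) (q * z) s t = z * ((q * (r ^ 2 - a.A * r * q + a.C1 * q ^ 2)) * z ^ 2 +
      z * ((q * (q * a.D2 - r * a.B)) * s + (q * (q * a.D3 - r * a.B')) * t) +
      ((q * a.E0 - r * a.q0) * s ^ 2 + (q * a.E1 - r * a.q1) * s * t +
        (q * a.E2 - r * a.q2) * t ^ 2)) := by
  simp only [G, h0, h1, h2, h3]; ring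

/-- The points of the conics. -/
theorem G_conic (a : Coef R) (h0 : a.c0 = 0) (h1 : a.c1 = 0) (h2 : a.c2 = 0) (h3 : a.c3 = 0)
    (e1 e2 h κ : R)
    (hq : a.q0 * e1 ^ 2 + a.q1 * e1 * e2 + a.q2 * e2 ^ 2 = h ^ 2 * κ) :
    let r := a.E0 * e1 ^ 2 + a.E1 * e1 * e2 + a.E2 * e2 ^ 2
    let q := h ^ 2 * κ
    let B := h * κ * (q * (a.D2 * e1 + a.D3 * e2) - r * (a.B * e1 + a.B' * e2)) +
      (q * (2 * a.E0 * e1 + a.E1 * e2) - r * (2 * a.q0 * e1 + a.q1 * e2))
    let N := κ * (r ^ 2 - a.A * r * q + a.C1 * q ^ 2) + h * κ * (q * a.D2 - r * a.B) +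
      (q * a.E0 - r * a.q0)
    h ^ 3 * G a (r * B) (-(q * B)) (h * (N * e1 - B)) (h * (N * e2)) = 0 := by
  intro r q B N
  have e : (q * a.E0 - r * a.q0) * e1 ^ 2 + (q * a.E1 - r * a.q1) * e1 * e2 +
      (q * a.E2 - r * a.q2) * e2 ^ 2 = 0 := by
    simp only [q, r]
    linear_combination (-(a.E0 * e1 ^ 2 + a.E1 * e1 * e2 + a.E2 * e2 ^ 2)) * hq
  have key := conic_param (q * (r ^ 2 - a.A * r * q + a.C1 * q ^ 2)) (q * (q * a.D2 - r * a.B))
    (q * (q * a.D3 - r * a.B')) (q * a.E0 - r * a.q0) (q * a.E1 - r * a.q1)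
    (q * a.E2 - r * a.q2) e1 e2 h e
  simp only at key
  have hB : (q * (q * a.D2 - r * a.B)) * e1 + (q * (q * a.D3 - r * a.B')) * e2 +
      h * (2 * (q * a.E0 - r * a.q0) * e1 + (q * a.E1 - r * a.q1) * e2) = h * B := by
    have hq2 : q = h ^ 2 * κ := rfl
    have hB2 : B = h * κ * (q * (a.D2 * e1 + a.D3 * e2) - r * (a.B * e1 + a.B' * e2)) +
      (q * (2 * a.E0 * e1 + a.E1 * e2) - r * (2 * a.q0 * e1 + a.q1 * e2)) := rfl
    clear_value q B r
    subst hB2
    linear_combination (q * (a.D2 * e1 + a.D3 * e2) - r * (a.B * e1 + a.B' * e2)) * hq2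
  have hN : q * (r ^ 2 - a.A * r * q + a.C1 * q ^ 2) + h * (q * (q * a.D2 - r * a.B)) +
      h ^ 2 * (q * a.E0 - r * a.q0) = h ^ 2 * N := by
    have hq2 : q = h ^ 2 * κ := rfl
    have hN2 : N = κ * (r ^ 2 - a.A * r * q + a.C1 * q ^ 2) + h * κ * (q * a.D2 - r * a.B) +
      (q * a.E0 - r * a.q0) := rfl
    clear_value q N r
    subst hN2
    linear_combination ((r ^ 2 - a.A * r * q + a.C1 * q ^ 2) + h * (q * a.D2 - r * a.B)) * hq2
  rw [hB, hN] at key
  have hp := G_plane a h0 h1 h2 h3 q r (-(h * B)) (h ^ 2 * N * e1 - h * B * h) (h ^ 2 * N * e2)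
  rw [key, mul_zero] at hp
  rw [← G_smul, ← hp]
  congr 1 <;> ring

end ring

section field

variable {k K : Type*} [Field k] [Field K] [Algebra k K]

/-- The tangent section is a line together with two conjugate lines through the point. -/
theorem case_quad [IsAlgClosed K] (a : Coef k) (hsm : Smooth K a) (m2 m3 : k)
    (h0 : a.c0 = a.q0 * m2) (h1 : a.c1 = a.q0 * m3 + a.q1 * m2)
    (h2 : a.c2 = a.q1 * m3 + a.q2 * m2) (h3 : a.c3 = a.q2 * m3)
    (hq0 : a.q0 ≠ 0) (hΔ : a.q1 ^ 2 - 4 * a.q0 * a.q2 ≠ 0) : HasCurve K a := by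
  set Δ : k := a.q1 ^ 2 - 4 * a.q0 * a.q2 with hΔdef
  -- a root of the quadratic form
  obtain ⟨θ, hθ⟩ : ∃ t : K, aeval t (C a.q0 * X ^ 2 + C a.q1 * X + C a.q2) = 0 := by
    apply IsAlgClosed.exists_aeval_eq_zero
    rw [degree_quadratic hq0]
    decide
  have hθ' : algebraMap k K a.q0 * θ ^ 2 + algebraMap k K a.q1 * θ + algebraMap k K a.q2 = 0 := by
    simpa using hθ
  -- the modified coefficients
  let b : Coef k := ⟨a.A, a.B - 2 * m2, a.B' - 2 * m3, a.q0, a.q1, a.q2, a.C1, a.D2 - a.A * m2,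
    a.D3 - a.A * m3, a.E0 + m2 ^ 2 - m2 * a.B, a.E1 + 2 * m2 * m3 - m2 * a.B' - m3 * a.B,
    a.E2 + m3 ^ 2 - m3 * a.B', 0, 0, 0, 0⟩
  have hb : ∀ y0 y1 y2 y3 : k[X], G (a.map C) (y0 - (C m2 * y2 + C m3 * y3)) y1 y2 y3 =
      G (b.map C) y0 y1 y2 y3 := by
    intro y0 y1 y2 y3
    simp only [G, Coef.map, b, h0, h1, h2, h3, map_add, map_mul, map_sub, map_pow, map_ofNat,
      map_zero]
    ring
  -- smoothness
  have hE : algebraMap k K b.E0 * θ ^ 2 + algebraMap k K b.E1 * θ + algebraMap k K b.E2 ≠ 0 := by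
    intro hE
    simp only [b, map_add, map_sub, map_mul, map_pow, map_ofNat] at hE
    have := hsm (-(algebraMap k K m2 * θ + algebraMap k K m3)) 0 θ 1
      (Or.inr (Or.inr (Or.inr one_ne_zero)))
    simp only [G, G0, G1, G2, G3, Coef.map, h0, h1, h2, h3, map_add, map_mul] at this
    have e0 := this (by ring)
    rcases e0 with e | e | e | e
    · exact e (by linear_combination hθ')
    · exact e (by linear_combination hE)
    · exact e (by linear_combination algebraMap k K m2 * hθ')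
    · exact e (by linear_combination algebraMap k K m3 * hθ')
  -- the polynomials
  obtain ⟨h, hh⟩ : ∃ h : k[X], h = C a.q0 * X ^ 2 + C a.q1 * X + C a.q2 := ⟨_, rfl⟩
  obtain ⟨h', hh'⟩ : ∃ h' : k[X], h' = 2 * C a.q0 * X + C a.q1 := ⟨_, rfl⟩
  have hCΔ : C Δ = C a.q1 ^ 2 - 4 * C a.q0 * C a.q2 := by
    rw [hΔdef]; simp only [map_sub, map_mul, map_pow, map_ofNat]
  obtain ⟨e1, he1⟩ : ∃ e : k[X], e = C Δ * X - h * h' := ⟨_, rfl⟩
  obtain ⟨e2, he2⟩ : ∃ e : k[X], e = C Δ := ⟨_, rfl⟩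
  obtain ⟨κ, hκ⟩ : ∃ e : k[X], e = C a.q0 * (h' ^ 2 - 4 * C Δ) := ⟨_, rfl⟩
  have hq : (b.map C).q0 * e1 ^ 2 + (b.map C).q1 * e1 * e2 + (b.map C).q2 * e2 ^ 2 =
      h ^ 2 * κ := by
    simp only [Coef.map, b]
    rw [hκ, he1, he2, hCΔ, hh, hh']
    ring
  have hG := G_conic (b.map C) (by simp [Coef.map, b]) (by simp [Coef.map, b])
    (by simp [Coef.map, b]) (by simp [Coef.map, b]) e1 e2 h κ hq
  simp only at hG
  have hθh : aeval θ h = 0 := by rw [hh]; simpa using hθ'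
  have hθ1 : aeval θ e1 = algebraMap k K Δ * θ := by
    rw [he1, map_sub, map_mul, map_mul, hθh]; simp
  have hθ2 : aeval θ e2 = algebraMap k K Δ := by rw [he2]; simp
  have hh0 : h ≠ 0 := by
    intro h0'
    have h2 := congrArg (fun p => coeff p 2) (hh.symm.trans h0')
    simp [coeff_X, coeff_C] at h2
    exact hq0 h2
  have hκ0 : κ ≠ 0 := by
    intro hκ0
    have e : C a.q0 * (4 * C a.q0 * h - 3 * C Δ) = 0 := by
      rw [← hκ0, hκ, hCΔ, hh, hh']; ring
    have e' := (mul_eq_zero.1 e).resolve_left (C_ne_zero.2 hq0)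
    have e3 : (3 : K) * algebraMap k K Δ = 0 := by
      have := congrArg (aeval θ) e'
      simp only [map_sub, map_mul, hθh, map_ofNat, aeval_C, map_zero] at this
      linear_combination -this
    have hΔK : algebraMap k K Δ ≠ 0 := (map_ne_zero (algebraMap k K)).2 hΔ
    have e3' : (3 : K) = 0 := (mul_eq_zero.1 e3).resolve_right hΔK
    have e3k : (3 : k) = 0 := by
      apply (algebraMap k K).injective
      rw [map_ofNat, map_zero, e3']
    have e4 : (4 : k) * a.q0 * a.q0 = 0 := by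
      rw [hh] at e'
      have hc : (4 * C a.q0 * (C a.q0 * X ^ 2 + C a.q1 * X + C a.q2) : k[X]) =
          C (4 * a.q0 * a.q0) * X ^ 2 + C (4 * a.q0 * a.q1) * X + C (4 * a.q0 * a.q2) := by
        simp only [map_mul, map_ofNat]; ring
      have hc2 : (3 * C Δ : k[X]) = C (3 * Δ) := by simp only [map_mul, map_ofNat]
      have hc3 : ∀ u v w z : k, (C u * X ^ 2 + C v * X + C w - C z : k[X]).coeff 2 = u := by
        intro u v w z; simp [coeff_X, coeff_C]
      rw [hc, hc2] at e'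
      have := congrArg (fun p => coeff p 2) e'
      simp only [hc3, coeff_zero] at this
      exact this
    have e5 : a.q0 * a.q0 = 0 := by linear_combination e4 - a.q0 * a.q0 * e3k
    exact hq0 (mul_self_eq_zero.1 e5)
  obtain ⟨r, hr⟩ : ∃ r : k[X], r = (b.map C).E0 * e1 ^ 2 + (b.map C).E1 * e1 * e2 +
    (b.map C).E2 * e2 ^ 2 := ⟨_, rfl⟩
  rw [← hr] at hG
  obtain ⟨q, hqd⟩ : ∃ q : k[X], q = h ^ 2 * κ := ⟨_, rfl⟩
  rw [← hqd] at hG
  obtain ⟨Bh, hBh⟩ : ∃ Bh : k[X], Bh = h * κ * (q * ((b.map C).D2 * e1 + (b.map C).D3 * e2) -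
    r * ((b.map C).B * e1 + (b.map C).B' * e2)) + (q * (2 * (b.map C).E0 * e1 +
      (b.map C).E1 * e2) - r * (2 * (b.map C).q0 * e1 + (b.map C).q1 * e2)) := ⟨_, rfl⟩
  rw [← hBh] at hG
  obtain ⟨N, hN⟩ : ∃ N : k[X], N = κ * (r ^ 2 - (b.map C).A * r * q + (b.map C).C1 * q ^ 2) +
    h * κ * (q * (b.map C).D2 - r * (b.map C).B) + (q * (b.map C).E0 - r * (b.map C).q0) :=
    ⟨_, rfl⟩
  rw [← hN] at hG
  have hG' := (mul_eq_zero.1 hG).resolve_left (pow_ne_zero 3 hh0)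
  have hθq : aeval θ q = 0 := by rw [hqd, map_mul, map_pow, hθh]; simp
  have hΔK : algebraMap k K Δ ≠ 0 := (map_ne_zero (algebraMap k K)).2 hΔ
  have hθr : aeval θ r ≠ 0 := by
    have e : aeval θ r = algebraMap k K Δ ^ 2 * (algebraMap k K b.E0 * θ ^ 2 +
        algebraMap k K b.E1 * θ + algebraMap k K b.E2) := by
      rw [hr]
      simp only [map_add, map_mul, map_pow, hθ1, hθ2, Coef.map, aeval_C]
      ring
    rw [e]
    exact mul_ne_zero (pow_ne_zero 2 hΔK) hE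
  have hθd : 2 * algebraMap k K a.q0 * θ + algebraMap k K a.q1 ≠ 0 := by
    intro e
    apply hΔK
    have : algebraMap k K Δ = (2 * algebraMap k K a.q0 * θ + algebraMap k K a.q1) ^ 2 := by
      rw [hΔdef]
      simp only [map_sub, map_mul, map_pow, map_ofNat]
      linear_combination (-4 * algebraMap k K a.q0) * hθ'
    rw [this, e]; simp
  have hθB : aeval θ Bh ≠ 0 := by
    have e : aeval θ Bh = -(aeval θ r * (algebraMap k K Δ * (2 * algebraMap k K a.q0 * θ +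
        algebraMap k K a.q1))) := by
      rw [hBh]
      simp only [map_add, map_sub, map_mul, hθ1, hθ2, hθq, hθh, Coef.map, aeval_C, map_ofNat, b]
      ring
    rw [e]
    exact neg_ne_zero.2 (mul_ne_zero hθr (mul_ne_zero hΔK hθd))
  have hB0 : Bh ≠ 0 := by
    intro h; apply hθB; rw [h, map_zero]
  refine ⟨r * Bh - (C m2 * (h * (N * e1 - Bh)) + C m3 * (h * (N * e2))), -(q * Bh),
    h * (N * e1 - Bh), h * (N * e2), ?_, ⟨θ, ?_, ?_, ?_, ?_⟩, ?_⟩
  · rw [hb, hG']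
  · simp only [map_add, map_sub, map_mul, hθh, zero_mul, mul_zero, add_zero, sub_zero]
    exact mul_ne_zero hθr hθB
  · simp [hθq]
  · simp [hθh]
  · simp [hθh]
  · left
    rw [hqd]
    exact neg_ne_zero.2 (mul_ne_zero (mul_ne_zero (pow_ne_zero 2 hh0) hκ0) hB0)

end field

end Q53.CubicCurve
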