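import Pool.Agent.Q53.CubicCurve.CaseA

/-!
The case in which the tangent plane section is a union of three conjugate lines through the point.
-/

set_option autoImplicit false

open Polynomial

namespace Q53.CubicCurve

section ring

variable {R : Type*} [CommRing R]

theorem map_G {S : Type*} [CommRing S] (f : R →+* S) (a : Coef R) (y0 y1 y2 y3 : R) :
    f (G a y0 y1 y2 y3) = G (a.map f) (f y0) (f y1) (f y2) (f y3) := by
  simp only [G, Coef.map, map_add, map_mul, map_pow]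

/-- The differential at `x` in the direction `y`. -/
def dG (a : Coef R) (x0 x1 x2 x3 y0 y1 y2 y3 : R) : R :=
  G0 a x0 x1 x2 x3 * y0 + G1 a x0 x1 x2 x3 * y1 + G2 a x0 x1 x2 x3 * y2 + G3 a x0 x1 x2 x3 * y3

theorem map_dG {S : Type*} [CommRing S] (f : R →+* S) (a : Coef R)
    (x0 x1 x2 x3 y0 y1 y2 y3 : R) :
    f (dG a x0 x1 x2 x3 y0 y1 y2 y3) =
      dG (a.map f) (f x0) (f x1) (f x2) (f x3) (f y0) (f y1) (f y2) (f y3) := by
  simp only [dG, G0, G1, G2, G3, Coef.map, map_add, map_mul, map_pow, map_ofNat]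

theorem G_line (a : Coef R) (l m x0 x1 x2 x3 y0 y1 y2 y3 : R) :
    G a (l * x0 + m * y0) (l * x1 + m * y1) (l * x2 + m * y2) (l * x3 + m * y3) =
      l ^ 3 * G a x0 x1 x2 x3 + l ^ 2 * m * dG a x0 x1 x2 x3 y0 y1 y2 y3 +
        l * m ^ 2 * dG a y0 y1 y2 y3 x0 x1 x2 x3 + m ^ 3 * G a y0 y1 y2 y3 := by
  simp only [G, dG, G0, G1, G2, G3]
  ring

/-- The point on the tangent plane section. -/
theorem G_sing (w A M D E c : R) :
    let C1 := -(w ^ 2 + A * w)
    let δ := 2 * w + A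
    let R0 := δ ^ 2 * E + C1 * M ^ 2 - A * M * D + D ^ 2
    let Z := δ ^ 3 * c
    let Y := w * Z + (w * M + D) * R0
    let u := -(δ * R0)
    Y ^ 2 * Z + Y * (A * Z ^ 2 + Z * M * u) + C1 * Z ^ 3 + Z ^ 2 * (D * u) + Z * (E * u ^ 2) +
      c * u ^ 3 = 0 := by
  intro C1 δ R0 Z Y u
  simp only [C1, δ, R0, Z, Y, u]
  ring

/-- The coordinate `M` in the direction `(1, v)`. -/
def cM (a : Coef R) (v : R) : R := a.B + a.B' * v
/-- The coordinate `D` in the direction `(1, v)`. -/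
def cD (a : Coef R) (v : R) : R := a.D2 + a.D3 * v
/-- The coordinate `E` in the direction `(1, v)`. -/
def cE (a : Coef R) (v : R) : R := a.E0 + a.E1 * v + a.E2 * v ^ 2
/-- The coordinate `c` in the direction `(1, v)`. -/
def cc (a : Coef R) (v : R) : R := a.c0 + a.c1 * v + a.c2 * v ^ 2 + a.c3 * v ^ 3
/-- The resultant in the direction `(1, v)`. -/
def cR (a : Coef R) (w v : R) : R :=
  (2 * w + a.A) ^ 2 * cE a v + a.C1 * cM a v ^ 2 - a.A * cM a v * cD a v + cD a v ^ 2
/-- The second coordinate of the point. -/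
def cZ (a : Coef R) (w v : R) : R := (2 * w + a.A) ^ 3 * cc a v
/-- The first coordinate of the point. -/
def cY (a : Coef R) (w v : R) : R := w * cZ a w v + (w * cM a v + cD a v) * cR a w v
/-- The third coordinate of the point. -/
def cU (a : Coef R) (w v : R) : R := -((2 * w + a.A) * cR a w v)

theorem G_point (a : Coef R) (h0 : a.q0 = 0) (h1 : a.q1 = 0) (h2 : a.q2 = 0) (w v : R)
    (hw : a.C1 = -(w ^ 2 + a.A * w)) :
    G a (cY a w v) (cZ a w v) (cU a w v) (cU a w v * v) = 0 := by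
  have key := G_sing w a.A (cM a v) (cD a v) (cE a v) (cc a v)
  simp only [← hw] at key
  have e1 : (2 * w + a.A) ^ 2 * cE a v + a.C1 * cM a v ^ 2 - a.A * cM a v * cD a v +
    cD a v ^ 2 = cR a w v := rfl
  have e2 : (2 * w + a.A) ^ 3 * cc a v = cZ a w v := rfl
  rw [e1, e2] at key
  have e3 : w * cZ a w v + (w * cM a v + cD a v) * cR a w v = cY a w v := rfl
  have e4 : -((2 * w + a.A) * cR a w v) = cU a w v := rfl
  rw [e3, e4] at key
  rw [← key]
  simp only [G, h0, h1, h2]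
  generalize cY a w v = Y
  generalize cZ a w v = Z
  generalize cU a w v = U
  simp only [cM, cD, cE, cc]
  ring

/-- The number `Θ`. -/
def cT (a : Coef R) (w : R) : R :=
  (2 * w + a.A) ^ 4 * a.c0 + cR a w 0 * (2 * a.D2 - a.A * a.B)

/-- The differential at the conjugate point. -/
theorem dG_zero (a : Coef R) (h0 : a.q0 = 0) (h1 : a.q1 = 0) (h2 : a.q2 = 0) (w : R)
    (hw : a.C1 = -(w ^ 2 + a.A * w)) :
    dG a (cY a (-a.A - w) 0) (cZ a (-a.A - w) 0) (cU a (-a.A - w) 0) (cU a (-a.A - w) 0 * 0)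
      (cY a w 0) (cZ a w 0) (cU a w 0) (cU a w 0 * 0) = -(cZ a w 0) * cT a w ^ 2 := by
  have hR : cR a (-a.A - w) 0 = cR a w 0 := by simp only [cR]; ring
  have hZ : cZ a (-a.A - w) 0 = - cZ a w 0 := by simp only [cZ]; ring
  have hU : cU a (-a.A - w) 0 = - cU a w 0 := by simp only [cU, hR]; ring
  have hG := G_point a h0 h1 h2 (-a.A - w) 0 (by rw [hw]; ring)
  have hY : cY a w 0 = cT a w - cY a (-a.A - w) 0 := by
    simp only [cY, hR, hZ, cT]
    simp only [cZ, cM, cD, cc]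
    ring
  rw [hY]
  have hG0 : G0 a (cY a (-a.A - w) 0) (cZ a (-a.A - w) 0) (cU a (-a.A - w) 0)
      (cU a (-a.A - w) 0 * 0) = -(cZ a w 0) * cT a w := by
    simp only [G0, h0, h1, h2, hZ, hU, cY, hR, cT]
    simp only [cU, cM, cD]
    generalize hr : cR a w 0 = r
    simp only [cZ, cc]
    ring
  have e : ∀ x0 x1 x2 t : R, dG a x0 x1 x2 (x2 * 0) (t - x0) (-x1) (-x2) (-x2 * 0) =
      t * G0 a x0 x1 x2 (x2 * 0) - 3 * G a x0 x1 x2 (x2 * 0) := by
    intro x0 x1 x2 t
    simp only [dG, G, G0, G1, G2, G3]; ring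
  have hZ' : cZ a w 0 = - cZ a (-a.A - w) 0 := by rw [hZ]; ring
  have hU' : cU a w 0 = - cU a (-a.A - w) 0 := by rw [hU]; ring
  have e2 := e (cY a (-a.A - w) 0) (cZ a (-a.A - w) 0) (cU a (-a.A - w) 0) (cT a w)
  rw [hG, hG0, ← hZ', ← hU'] at e2
  rw [e2]; ring

theorem lam_Y (a : Coef R) (w : R) (hw : a.C1 = -(w ^ 2 + a.A * w)) :
    cZ a w 0 * cY a w 0 = ((2 * w + a.A) ^ 2 * a.c0) * (cT a w * w +
      cR a w 0 * (a.A * a.D2 - 2 * a.B * a.C1)) := by
  simp only [cT, cY]
  generalize cR a w 0 = r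
  simp only [cZ, cc, cM, cD, hw]
  ring

theorem map_cY {S : Type*} [CommRing S] (f : R →+* S) (a : Coef R) (w v : R) :
    f (cY a w v) = cY (a.map f) (f w) (f v) := by
  simp only [cY, cZ, cR, cM, cD, cE, cc, Coef.map, map_add, map_sub, map_mul, map_pow, map_ofNat]

theorem map_cZ {S : Type*} [CommRing S] (f : R →+* S) (a : Coef R) (w v : R) :
    f (cZ a w v) = cZ (a.map f) (f w) (f v) := by
  simp only [cZ, cc, Coef.map, map_add, map_mul, map_pow, map_ofNat]

theorem map_cU {S : Type*} [CommRing S] (f : R →+* S) (a : Coef R) (w v : R) :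
    f (cU a w v) = cU (a.map f) (f w) (f v) := by
  simp only [cU, cR, cM, cD, cE, Coef.map, map_add, map_sub, map_mul, map_pow,
    map_ofNat, map_neg]

end ring

section field

variable {k K : Type*} [Field k] [Field K] [Algebra k K]

/-- Evaluation at zero. -/
noncomputable def ev (u v : k) : QuadraticAlgebra k[X] (C u) (C v) →+* QuadraticAlgebra k u v where
  toFun z := ⟨z.re.eval 0, z.im.eval 0⟩
  map_zero' := by ext <;> simp
  map_one' := by ext <;> simp [QuadraticAlgebra.re_one, QuadraticAlgebra.im_one]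
  map_add' x y := by ext <;> simp
  map_mul' x y := by ext <;> simp

theorem ev_algebraMap (u v : k) (r : k[X]) :
    ev u v (algebraMap _ _ r) = algebraMap _ _ (r.eval 0) := by
  ext <;> simp [ev]

theorem ev_omega (u v : k) : ev u v QuadraticAlgebra.omega = QuadraticAlgebra.omega := by
  ext <;> simp [ev]

theorem ev_star (u v : k) (z : QuadraticAlgebra k[X] (C u) (C v)) :
    ev u v (star z) = star (ev u v z) := by
  ext <;> simp [ev]

theorem ev_im (u v : k) (z : QuadraticAlgebra k[X] (C u) (C v)) :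
    (ev u v z).im = z.im.eval 0 := rfl

theorem star_algebraMap' {R : Type*} [CommRing R] (u v r : R) :
    star (algebraMap R (QuadraticAlgebra R u v) r) = algebraMap _ _ r := by
  ext <;> simp

theorem star_omega' {R : Type*} [CommRing R] (u v : R) :
    star (QuadraticAlgebra.omega : QuadraticAlgebra R u v) =
      algebraMap _ _ v - QuadraticAlgebra.omega := by
  ext <;> simp

theorem omega_sq' {R : Type*} [CommRing R] (u v : R) :
    (QuadraticAlgebra.omega : QuadraticAlgebra R u v) ^ 2 =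
      algebraMap _ _ u + algebraMap _ _ v * QuadraticAlgebra.omega := by
  rw [pow_two, QuadraticAlgebra.omega_mul_omega_eq_algebraMap]

/-- The third point on the line through two conjugate points. -/
theorem G_im {R : Type*} [CommRing R] (u v : R) (a : Coef R)
    (P0 P1 P2 P3 : QuadraticAlgebra R u v)
    (hG : G (a.map (algebraMap R (QuadraticAlgebra R u v))) P0 P1 P2 P3 = 0)
    (lam : QuadraticAlgebra R u v)
    (hlam : lam = dG (a.map (algebraMap R (QuadraticAlgebra R u v))) (star P0) (star P1) (star P2)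
      (star P3) P0 P1 P2 P3) :
    (v ^ 2 + 4 * u) ^ 2 * G a (lam * P0).im (lam * P1).im (lam * P2).im (lam * P3).im = 0 := by
  obtain ⟨b, hb⟩ : ∃ b, b = a.map (algebraMap R (QuadraticAlgebra R u v)) := ⟨_, rfl⟩
  rw [← hb] at hG hlam
  have hbs : b.map (starRingEnd (QuadraticAlgebra R u v)) = b := by
    rw [hb]
    simp only [Coef.map, starRingEnd_apply, star_algebraMap']
  have hG' : G b (star P0) (star P1) (star P2) (star P3) = 0 := by
    have := map_G (starRingEnd (QuadraticAlgebra R u v)) b P0 P1 P2 P3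
    rw [hG, hbs, map_zero] at this
    exact this.symm
  have hstar : star lam = dG b P0 P1 P2 P3 (star P0) (star P1) (star P2) (star P3) := by
    have := map_dG (starRingEnd (QuadraticAlgebra R u v)) b (star P0) (star P1) (star P2)
      (star P3) P0 P1 P2 P3
    rw [hbs, ← hlam] at this
    simpa only [starRingEnd_apply, star_star] using this
  have hline := G_line b lam (-star lam) P0 P1 P2 P3 (star P0) (star P1) (star P2) (star P3)
  rw [hG, hG', ← hlam, ← hstar] at hline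
  have hsub : ∀ z : QuadraticAlgebra R u v, lam * z + -star lam * star z =
      (QuadraticAlgebra.omega - star QuadraticAlgebra.omega) *
        algebraMap R (QuadraticAlgebra R u v) (lam * z).im := by
    intro z
    have e := QuadraticAlgebra.sub_star (lam * z)
    rw [Algebra.smul_def, star_mul'] at e
    linear_combination e
  rw [hsub, hsub, hsub, hsub, G_smul, hb, ← map_G] at hline
  have hz : (QuadraticAlgebra.omega - star QuadraticAlgebra.omega : QuadraticAlgebra R u v) ^ 3 *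
    algebraMap R (QuadraticAlgebra R u v)
      (G a (lam * P0).im (lam * P1).im (lam * P2).im (lam * P3).im) = 0 := by
    rw [hline]; ring
  have hd : (QuadraticAlgebra.omega - star QuadraticAlgebra.omega : QuadraticAlgebra R u v) ^ 2 =
      algebraMap R (QuadraticAlgebra R u v) (v ^ 2 + 4 * u) := by
    rw [star_omega']
    simp only [map_add, map_mul, map_pow, map_ofNat]
    linear_combination 4 * omega_sq' u v
  apply QuadraticAlgebra.algebraMap_injective (a := u) (b := v)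
  rw [map_mul, map_pow, ← hd, map_zero]
  linear_combination
    (QuadraticAlgebra.omega - star QuadraticAlgebra.omega : QuadraticAlgebra R u v) * hz

/-- The three conjugate lines, with a good direction. -/
theorem case_conj (a : Coef k) (h0 : a.q0 = 0) (h1 : a.q1 = 0) (h2 : a.q2 = 0)
    (hc0 : a.c0 ≠ 0)
    (hΔ : ∀ s : k, (a.A + a.B * s) ^ 2 -
      4 * (a.C1 + a.D2 * s + a.E0 * s ^ 2 + a.c0 * s ^ 3) ≠ 0)
    (hR : (a.A ^ 2 - 4 * a.C1) * a.E0 + a.C1 * a.B ^ 2 - a.A * a.B * a.D2 + a.D2 ^ 2 ≠ 0) :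
    HasCurve K a := by
  have hΔ0 : a.A ^ 2 - 4 * a.C1 ≠ 0 := by simpa using hΔ 0
  obtain ⟨Θ, hΘ⟩ : ∃ Θ : k, Θ = (a.A ^ 2 - 4 * a.C1) ^ 2 * a.c0 + ((a.A ^ 2 - 4 * a.C1) * a.E0 +
    a.C1 * a.B ^ 2 - a.A * a.B * a.D2 + a.D2 ^ 2) * (2 * a.D2 - a.A * a.B) := ⟨_, rfl⟩
  have hΘ0 : Θ ≠ 0 := by
    intro hΘ0
    apply hΔ (-((a.A ^ 2 - 4 * a.C1) * a.E0 +
      a.C1 * a.B ^ 2 - a.A * a.B * a.D2 + a.D2 ^ 2) / ((a.A ^ 2 - 4 * a.C1) * a.c0))
    have hprod : (a.A ^ 2 - 4 * a.C1) ^ 3 * a.c0 ^ 2 ≠ 0 :=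
      mul_ne_zero (pow_ne_zero 3 hΔ0) (pow_ne_zero 2 hc0)
    apply (mul_eq_zero.1 _).resolve_left hprod
    trans Θ ^ 2
    · rw [hΘ]
      field_simp
      ring
    · rw [hΘ0]; simp
  -- the point
  obtain ⟨P0, hP0⟩ : ∃ P, P = cY ((a.map C).map
    (algebraMap k[X] (QuadraticAlgebra k[X] (C (-a.C1)) (C (-a.A)))))
    QuadraticAlgebra.omega (QuadraticAlgebra.omega * algebraMap k[X] _ X) := ⟨_, rfl⟩
  obtain ⟨P1, hP1⟩ : ∃ P, P = cZ ((a.map C).map
    (algebraMap k[X] (QuadraticAlgebra k[X] (C (-a.C1)) (C (-a.A)))))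
    QuadraticAlgebra.omega (QuadraticAlgebra.omega * algebraMap k[X] _ X) := ⟨_, rfl⟩
  obtain ⟨P2, hP2⟩ : ∃ P, P = cU ((a.map C).map
    (algebraMap k[X] (QuadraticAlgebra k[X] (C (-a.C1)) (C (-a.A)))))
    QuadraticAlgebra.omega (QuadraticAlgebra.omega * algebraMap k[X] _ X) := ⟨_, rfl⟩
  have hG : G ((a.map C).map (algebraMap k[X] (QuadraticAlgebra k[X] (C (-a.C1)) (C (-a.A)))))
      P0 P1 P2 (P2 * (QuadraticAlgebra.omega * algebraMap k[X] _ X)) = 0 := by
    rw [hP0, hP1, hP2]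
    apply G_point
    · simp [Coef.map, h0]
    · simp [Coef.map, h1]
    · simp [Coef.map, h2]
    · rw [omega_sq']
      simp only [Coef.map, map_neg]
      ring
  obtain ⟨lam, hlam⟩ : ∃ lam, lam = dG ((a.map C).map
    (algebraMap k[X] (QuadraticAlgebra k[X] (C (-a.C1)) (C (-a.A))))) (star P0) (star P1) (star P2)
    (star (P2 * (QuadraticAlgebra.omega * algebraMap k[X] _ X))) P0 P1 P2
    (P2 * (QuadraticAlgebra.omega * algebraMap k[X] _ X)) := ⟨_, rfl⟩
  have hcurve := G_im _ _ (a.map C) P0 P1 P2 (P2 * (QuadraticAlgebra.omega * algebraMap k[X] _ X))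
    hG lam hlam
  have hu : (C (-a.A) ^ 2 + 4 * C (-a.C1) : k[X]) = C (a.A ^ 2 - 4 * a.C1) := by
    simp only [map_neg, map_sub, map_mul, map_pow, map_ofNat]; ring
  rw [hu] at hcurve
  have hcurve' := (mul_eq_zero.1 hcurve).resolve_left (pow_ne_zero 2 (C_ne_zero.2 hΔ0))
  -- evaluation at zero
  obtain ⟨b0, hb0⟩ : ∃ b, b = a.map (algebraMap k (QuadraticAlgebra k (-a.C1) (-a.A))) :=
    ⟨_, rfl⟩
  have hmap : ((a.map C).map (algebraMap k[X]
      (QuadraticAlgebra k[X] (C (-a.C1)) (C (-a.A))))).map (ev (-a.C1) (-a.A)) = b0 := by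
    rw [hb0]
    simp only [Coef.map, ev_algebraMap, eval_C]
  have hA : algebraMap k (QuadraticAlgebra k (-a.C1) (-a.A)) a.A = b0.A := by
    rw [hb0]; rfl
  have hC1 : algebraMap k (QuadraticAlgebra k (-a.C1) (-a.A)) a.C1 = b0.C1 := by
    rw [hb0]; rfl
  have hw : b0.C1 = -((QuadraticAlgebra.omega : QuadraticAlgebra k (-a.C1) (-a.A)) ^ 2 +
      b0.A * QuadraticAlgebra.omega) := by
    rw [omega_sq', ← hA, ← hC1, map_neg, map_neg]; ring
  have hws : star (QuadraticAlgebra.omega : QuadraticAlgebra k (-a.C1) (-a.A)) =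
      -b0.A - QuadraticAlgebra.omega := by
    rw [star_omega', map_neg, hA]
  have hb0s : b0.map (starRingEnd (QuadraticAlgebra k (-a.C1) (-a.A))) = b0 := by
    rw [hb0]
    simp only [Coef.map, starRingEnd_apply, star_algebraMap']
  have e0 : ev (-a.C1) (-a.A) P0 = cY b0 QuadraticAlgebra.omega 0 := by
    rw [hP0, map_cY, hmap, map_mul, ev_omega, ev_algebraMap]; simp
  have e1 : ev (-a.C1) (-a.A) P1 = cZ b0 QuadraticAlgebra.omega 0 := by
    rw [hP1, map_cZ, hmap, map_mul, ev_omega, ev_algebraMap]; simp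
  have e2 : ev (-a.C1) (-a.A) P2 = cU b0 QuadraticAlgebra.omega 0 := by
    rw [hP2, map_cU, hmap, map_mul, ev_omega, ev_algebraMap]; simp
  have e3 : ev (-a.C1) (-a.A) (P2 * (QuadraticAlgebra.omega * algebraMap k[X] _ X)) =
      cU b0 QuadraticAlgebra.omega 0 * 0 := by
    rw [map_mul, map_mul, e2, ev_algebraMap]; simp
  have s0 : star (cY b0 QuadraticAlgebra.omega 0) =
      cY b0 (-b0.A - QuadraticAlgebra.omega) 0 := by
    have := map_cY (starRingEnd (QuadraticAlgebra k (-a.C1) (-a.A))) b0 QuadraticAlgebra.omega 0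
    rw [hb0s, starRingEnd_apply, starRingEnd_apply, hws] at this
    simpa using this
  have s1 : star (cZ b0 QuadraticAlgebra.omega 0) =
      cZ b0 (-b0.A - QuadraticAlgebra.omega) 0 := by
    have := map_cZ (starRingEnd (QuadraticAlgebra k (-a.C1) (-a.A))) b0 QuadraticAlgebra.omega 0
    rw [hb0s, starRingEnd_apply, starRingEnd_apply, hws] at this
    simpa using this
  have s2 : star (cU b0 QuadraticAlgebra.omega 0) =
      cU b0 (-b0.A - QuadraticAlgebra.omega) 0 := by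
    have := map_cU (starRingEnd (QuadraticAlgebra k (-a.C1) (-a.A))) b0 QuadraticAlgebra.omega 0
    rw [hb0s, starRingEnd_apply, starRingEnd_apply, hws] at this
    simpa using this
  have el : ev (-a.C1) (-a.A) lam = -(cZ b0 QuadraticAlgebra.omega 0) *
      cT b0 QuadraticAlgebra.omega ^ 2 := by
    rw [hlam, map_dG, hmap, ev_star, ev_star, ev_star, ev_star, e0, e1, e2, e3, s0, s1, s2,
      star_mul', star_zero, s2, dG_zero b0 _ _ _ _ hw]
    · rw [hb0]; simp [Coef.map, h0]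
    · rw [hb0]; simp [Coef.map, h1]
    · rw [hb0]; simp [Coef.map, h2]
  obtain ⟨r0, hr0⟩ : ∃ r0, r0 = (a.A ^ 2 - 4 * a.C1) * a.E0 +
    a.C1 * a.B ^ 2 - a.A * a.B * a.D2 + a.D2 ^ 2 := ⟨_, rfl⟩
  rw [← hr0] at hR hΘ
  have hd : (2 * QuadraticAlgebra.omega + b0.A) ^ 2 = algebraMap k
      (QuadraticAlgebra k (-a.C1) (-a.A)) (a.A ^ 2 - 4 * a.C1) := by
    simp only [map_sub, map_mul, map_pow, map_ofNat, hA, hC1]
    linear_combination 4 * hw
  have hr : cR b0 QuadraticAlgebra.omega 0 = algebraMap k _ r0 := by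
    simp only [cR]
    rw [hd, hr0]
    simp only [cE, cM, cD, hb0, Coef.map, map_add, map_sub, map_mul, map_pow]
    ring
  have hT : cT b0 QuadraticAlgebra.omega = algebraMap k _ Θ := by
    simp only [cT]
    rw [hr, hΘ]
    have : (2 * QuadraticAlgebra.omega + b0.A) ^ 4 = algebraMap k
      (QuadraticAlgebra k (-a.C1) (-a.A)) ((a.A ^ 2 - 4 * a.C1) ^ 2) := by
      rw [map_pow, ← hd]; ring
    rw [this]
    simp only [hb0, Coef.map, map_add, map_sub, map_mul, map_pow, map_ofNat]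
  obtain ⟨Δ, hΔd⟩ : ∃ Δ, Δ = a.A ^ 2 - 4 * a.C1 := ⟨_, rfl⟩
  rw [← hΔd] at hd hΔ0
  have hc : algebraMap k (QuadraticAlgebra k (-a.C1) (-a.A)) a.c0 = b0.c0 := by
    rw [hb0]; rfl
  have hZ2 : cZ b0 QuadraticAlgebra.omega 0 ^ 2 = algebraMap k _ (Δ ^ 3 * a.c0 ^ 2) := by
    simp only [cZ, cc, map_mul, map_pow, ← hd, hc]
    ring
  have hZU : cZ b0 QuadraticAlgebra.omega 0 * cU b0 QuadraticAlgebra.omega 0 =
      -algebraMap k _ (Δ ^ 2 * a.c0 * r0) := by
    simp only [cU]
    rw [hr]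
    simp only [cZ, cc, map_mul, map_pow, ← hd, hc]
    ring
  have f0 : (lam * P0).im.eval 0 = -(Θ ^ 3 * Δ * a.c0) := by
    rw [← ev_im, map_mul, el, e0]
    have e : -(cZ b0 QuadraticAlgebra.omega 0) * cT b0 QuadraticAlgebra.omega ^ 2 *
        cY b0 QuadraticAlgebra.omega 0 =
        algebraMap k _ (-(Θ ^ 2 * Δ * a.c0 * (r0 * (a.A * a.D2 - 2 * a.B * a.C1)))) +
        (-(Θ ^ 3 * Δ * a.c0)) • QuadraticAlgebra.omega := by
      have := lam_Y b0 QuadraticAlgebra.omega hw
      rw [hT, hr, hd] at this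
      rw [hT, Algebra.smul_def]
      have e' : algebraMap k (QuadraticAlgebra k (-a.C1) (-a.A)) (a.A * a.D2 - 2 * a.B * a.C1) =
        b0.A * b0.D2 - 2 * b0.B * b0.C1 := by
        rw [hb0]; simp only [Coef.map, map_sub, map_mul, map_ofNat]
      rw [← e', ← hc] at this
      simp only [map_neg, map_mul _ (_ * _) _, map_mul _ (_ ^ _) _, map_mul _ r0 _, map_pow]
      linear_combination (-(algebraMap k _ Θ) ^ 2) * this
    rw [e, QuadraticAlgebra.im_add, QuadraticAlgebra.algebraMap_im, QuadraticAlgebra.im_smul,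
      QuadraticAlgebra.omega_im]
    simp
  have f1 : (lam * P1).im.eval 0 = 0 := by
    rw [← ev_im, map_mul, el, e1]
    have e : -(cZ b0 QuadraticAlgebra.omega 0) * cT b0 QuadraticAlgebra.omega ^ 2 *
        cZ b0 QuadraticAlgebra.omega 0 = algebraMap k _ (-(Θ ^ 2 * (Δ ^ 3 * a.c0 ^ 2))) := by
      rw [hT, map_neg, map_mul, ← hZ2, map_pow]; ring
    rw [e, QuadraticAlgebra.algebraMap_im]
  have f2' : ev (-a.C1) (-a.A) (lam * P2) =
      algebraMap k _ (Θ ^ 2 * (Δ ^ 2 * a.c0 * r0)) := by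
    rw [map_mul, el, e2, hT, map_mul _ (Θ ^ 2), map_pow]
    linear_combination (-(algebraMap k _ Θ) ^ 2) * hZU
  have f2 : (lam * P2).im.eval 0 = 0 := by
    rw [← ev_im, f2', QuadraticAlgebra.algebraMap_im]
  have f3 : (lam * (P2 * (QuadraticAlgebra.omega * algebraMap k[X] _ X))).im.eval 0 = 0 := by
    rw [← ev_im, map_mul, e3]
    simp
  refine ⟨_, _, _, _, hcurve', ⟨0, ?_, ?_, ?_, ?_⟩, ?_⟩
  · rw [aeval_def, ← map_zero (algebraMap k K), eval₂_at_apply, f0]
    rw [Ne, (algebraMap k K).injective.eq_iff]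
    exact neg_ne_zero.2 (mul_ne_zero (mul_ne_zero (pow_ne_zero 3 hΘ0) hΔ0) hc0)
  · rw [aeval_def, ← map_zero (algebraMap k K), eval₂_at_apply, f1]
  · rw [aeval_def, ← map_zero (algebraMap k K), eval₂_at_apply, f2]
  · rw [aeval_def, ← map_zero (algebraMap k K), eval₂_at_apply, f3]
  · right
    by_contra hcon
    push Not at hcon
    obtain ⟨g2, g3⟩ := hcon
    have e : lam * (P2 * (QuadraticAlgebra.omega * algebraMap k[X] _ X)) =
        (lam * P2) * (QuadraticAlgebra.omega * algebraMap k[X] _ X) := by ring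
    rw [e] at g3
    obtain ⟨z, hz⟩ : ∃ z, z = lam * P2 := ⟨_, rfl⟩
    rw [← hz] at g2 g3 f2'
    simp [g2] at g3
    have hz0 : z = 0 := by
      ext
      · simp [g3]
      · simp [g2]
    rw [hz0, map_zero] at f2'
    have := QuadraticAlgebra.algebraMap_injective (a := -a.C1) (b := -a.A)
      ((map_zero _).trans f2')
    exact mul_ne_zero (pow_ne_zero 2 hΘ0) (mul_ne_zero (mul_ne_zero (pow_ne_zero 2 hΔ0) hc0) hR)
      this.symm

end field

end Q53.CubicCurve
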