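import Pool.Agent.Q53.CubicCurve.CaseB

/-!
Three conjugate lines through the point: a rational point at which the tangent plane passes through
the given point, and the reduction to a good direction.
-/

set_option autoImplicit false

open Polynomial

namespace Q53.CubicCurve

section fixed

variable {k K : Type*} [Field k] [Field K] [Algebra k K]

/-- There is a rational point whose tangent plane passes through the given point. -/
theorem case_fixed (a : Coef k) (hsm : Smooth K a) (h0 : a.q0 = 0) (h1 : a.q1 = 0)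
    (h2 : a.q2 = 0)
    (hc : ∀ s t : k, (s ≠ 0 ∨ t ≠ 0) →
      a.c0 * s ^ 3 + a.c1 * s ^ 2 * t + a.c2 * s * t ^ 2 + a.c3 * t ^ 3 ≠ 0)
    (y0 s0 t0 : k) (hy : 2 * y0 + (a.A + a.B * s0 + a.B' * t0) = 0)
    (hf : y0 ^ 2 + y0 * (a.A + a.B * s0 + a.B' * t0) + (a.C1 + (a.D2 * s0 + a.D3 * t0) +
      (a.E0 * s0 ^ 2 + a.E1 * s0 * t0 + a.E2 * t0 ^ 2) +
      (a.c0 * s0 ^ 3 + a.c1 * s0 ^ 2 * t0 + a.c2 * s0 * t0 ^ 2 + a.c3 * t0 ^ 3)) = 0) :
    HasCurve K a := by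
  obtain ⟨m2, hm2⟩ : ∃ m, m = G2 a y0 1 s0 t0 := ⟨_, rfl⟩
  obtain ⟨m3, hm3⟩ : ∃ m, m = G3 a y0 1 s0 t0 := ⟨_, rfl⟩
  have hm : m3 ≠ 0 ∨ -m2 ≠ 0 := by
    by_contra hcon
    push Not at hcon
    obtain ⟨g3, g2⟩ := hcon
    rw [neg_eq_zero] at g2
    rw [hm2] at g2
    rw [hm3] at g3
    have g0 : G0 a y0 1 s0 t0 = 0 := by
      simp only [G0, h0, h1, h2]; linear_combination hy
    have g : G a y0 1 s0 t0 = 0 := by
      simp only [G, h0, h1, h2]; linear_combination hf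
    have g1 : G1 a y0 1 s0 t0 = 0 := by
      have : G1 a y0 1 s0 t0 = 3 * G a y0 1 s0 t0 - y0 * G0 a y0 1 s0 t0 -
        s0 * G2 a y0 1 s0 t0 - t0 * G3 a y0 1 s0 t0 := by
        simp only [G, G0, G1, G2, G3]; ring
      rw [this, g, g0, g2, g3]; ring
    have e : ∀ x : k, x = 0 → algebraMap k K x = 0 := by
      intro x hx; rw [hx, map_zero]
    have := hsm (algebraMap k K y0) (algebraMap k K 1) (algebraMap k K s0) (algebraMap k K t0)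
      (Or.inr (Or.inl (by simp))) (by rw [← map_G, g, map_zero])
    have g0' := e _ g0
    have g1' := e _ g1
    have g2' := e _ g2
    have g3' := e _ g3
    simp only [G0, G1, G2, G3, Coef.map, map_add, map_mul, map_pow, map_ofNat] at this g0' g1' g2' g3'
    rcases this with h | h | h | h
    · exact h g0'
    · exact h g1'
    · exact h g2'
    · exact h g3'
  have hcm := hc m3 (-m2) hm
  obtain ⟨c, hcd⟩ : ∃ c, c = a.c0 * m3 ^ 3 + a.c1 * m3 ^ 2 * (-m2) + a.c2 * m3 * (-m2) ^ 2 +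
    a.c3 * (-m2) ^ 3 := ⟨_, rfl⟩
  rw [← hcd] at hcm
  obtain ⟨n1, hn1⟩ : ∃ n, n = a.B * m3 - a.B' * m2 := ⟨_, rfl⟩
  obtain ⟨n2, hn2⟩ : ∃ n, n = (a.E0 + 3 * a.c0 * s0 + a.c1 * t0) * m3 ^ 2 -
    (a.E1 + 2 * a.c1 * s0 + 2 * a.c2 * t0) * m3 * m2 + (a.E2 + a.c2 * s0 + 3 * a.c3 * t0) * m2 ^ 2 :=
    ⟨_, rfl⟩
  have key : ∀ x w : k[X], w = 1 + C n1 * x + C n2 * x ^ 2 →
      G (a.map C) (w - C y0 * C c * x ^ 3) (-(C c * x ^ 3)) (x * w * C m3 - C s0 * C c * x ^ 3)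
        (-(x * w * C m2) - C t0 * C c * x ^ 3) = 0 := by
    intro x w hw
    have hP : G (a.map C) (C y0) 1 (C s0) (C t0) = 0 := by
      have := congrArg (C : k → k[X]) hf
      simp only [map_add, map_mul, map_pow, map_zero] at this
      simp only [G, Coef.map, h0, h1, h2, map_zero]
      linear_combination this
    have hP0 : G0 (a.map C) (C y0) 1 (C s0) (C t0) = 0 := by
      have := congrArg (C : k → k[X]) hy
      simp only [map_add, map_mul, map_ofNat, map_zero] at this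
      simp only [G0, Coef.map, h0, h1, h2, map_zero]
      linear_combination this
    have hP2 : G2 (a.map C) (C y0) 1 (C s0) (C t0) = C m2 := by
      rw [hm2]
      simp only [G2, Coef.map, map_add, map_mul, map_pow, map_ofNat, map_one]
    have hP3 : G3 (a.map C) (C y0) 1 (C s0) (C t0) = C m3 := by
      rw [hm3]
      simp only [G3, Coef.map, map_add, map_mul, map_pow, map_ofNat, map_one]
    have hd : dG (a.map C) (C y0) 1 (C s0) (C t0) 1 0 (x * C m3) (-(x * C m2)) = 0 := by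
      simp only [dG]
      rw [hP0, hP2, hP3]; ring
    have hv : G (a.map C) 1 0 (x * C m3) (-(x * C m2)) = C c * x ^ 3 := by
      rw [hcd]
      simp only [G, Coef.map, h0, h1, h2, map_add, map_mul, map_pow, map_neg, map_zero]
      ring
    have hvd : dG (a.map C) 1 0 (x * C m3) (-(x * C m2)) (C y0) 1 (C s0) (C t0) = w := by
      rw [hw, hn1, hn2]
      simp only [dG, G0, G1, G2, G3, Coef.map, h0, h1, h2, map_add, map_sub, map_mul, map_pow,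
        map_zero, map_ofNat]
      ring
    have hline := G_line (a.map C) (-(C c * x ^ 3)) w (C y0) 1 (C s0) (C t0) 1 0 (x * C m3)
      (-(x * C m2))
    rw [hP, hd, hv, hvd] at hline
    have e : (-(C c * x ^ 3)) ^ 3 * 0 + (-(C c * x ^ 3)) ^ 2 * w * 0 +
      -(C c * x ^ 3) * w ^ 2 * w + w ^ 3 * (C c * x ^ 3) = 0 := by ring
    rw [e] at hline
    have e0 : w - C y0 * C c * x ^ 3 = -(C c * x ^ 3) * C y0 + w * 1 := by ring
    have e1 : -(C c * x ^ 3) = -(C c * x ^ 3) * 1 + w * 0 := by ring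
    have e2 : x * w * C m3 - C s0 * C c * x ^ 3 = -(C c * x ^ 3) * C s0 + w * (x * C m3) := by
      ring
    have e3 : -(x * w * C m2) - C t0 * C c * x ^ 3 = -(C c * x ^ 3) * C t0 +
      w * (-(x * C m2)) := by ring
    rw [← e0, ← e1, ← e2, ← e3] at hline
    exact hline
  refine ⟨_, _, _, _, key X _ rfl, ⟨0, ?_, ?_, ?_, ?_⟩, ?_⟩
  · simp
  · simp
  · simp
  · simp
  · left
    exact neg_ne_zero.2 (mul_ne_zero (C_ne_zero.2 hcm) (pow_ne_zero 3 X_ne_zero))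

end fixed

section tr

/-- A linear change of the last two coordinates. -/
def Coef.tr {R : Type*} [CommRing R] (a : Coef R) (s t w1 w2 z1 z2 : R) : Coef R where
  A := a.A + a.B * s + a.B' * t
  B := a.B * w1 + a.B' * w2
  B' := a.B * z1 + a.B' * z2
  q0 := 0
  q1 := 0
  q2 := 0
  C1 := a.C1 + (a.D2 * s + a.D3 * t) + (a.E0 * s ^ 2 + a.E1 * s * t + a.E2 * t ^ 2) +
      (a.c0 * s ^ 3 + a.c1 * s ^ 2 * t + a.c2 * s * t ^ 2 + a.c3 * t ^ 3)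
  D2 := (a.D2 + 2 * a.E0 * s + a.E1 * t + 3 * a.c0 * s ^ 2 + 2 * a.c1 * s * t + a.c2 * t ^ 2) * w1 +
      (a.D3 + a.E1 * s + 2 * a.E2 * t + a.c1 * s ^ 2 + 2 * a.c2 * s * t + 3 * a.c3 * t ^ 2) * w2
  D3 := (a.D2 + 2 * a.E0 * s + a.E1 * t + 3 * a.c0 * s ^ 2 + 2 * a.c1 * s * t + a.c2 * t ^ 2) * z1 +
      (a.D3 + a.E1 * s + 2 * a.E2 * t + a.c1 * s ^ 2 + 2 * a.c2 * s * t + 3 * a.c3 * t ^ 2) * z2
  E0 := (a.E0 + 3 * a.c0 * s + a.c1 * t) * w1 ^ 2 +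
      (a.E1 + 2 * a.c1 * s + 2 * a.c2 * t) * w1 * w2 + (a.E2 + a.c2 * s + 3 * a.c3 * t) * w2 ^ 2
  E1 := 2 * (a.E0 + 3 * a.c0 * s + a.c1 * t) * w1 * z1 +
      (a.E1 + 2 * a.c1 * s + 2 * a.c2 * t) * (w1 * z2 + w2 * z1) +
      2 * (a.E2 + a.c2 * s + 3 * a.c3 * t) * w2 * z2
  E2 := (a.E0 + 3 * a.c0 * s + a.c1 * t) * z1 ^ 2 +
      (a.E1 + 2 * a.c1 * s + 2 * a.c2 * t) * z1 * z2 + (a.E2 + a.c2 * s + 3 * a.c3 * t) * z2 ^ 2
  c0 := a.c0 * w1 ^ 3 + a.c1 * w1 ^ 2 * w2 + a.c2 * w1 * w2 ^ 2 + a.c3 * w2 ^ 3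
  c1 := 3 * a.c0 * w1 ^ 2 * z1 + a.c1 * (w1 ^ 2 * z2 + 2 * w1 * w2 * z1) +
      a.c2 * (w2 ^ 2 * z1 + 2 * w1 * w2 * z2) + 3 * a.c3 * w2 ^ 2 * z2
  c2 := 3 * a.c0 * w1 * z1 ^ 2 + a.c1 * (2 * w1 * z1 * z2 + w2 * z1 ^ 2) +
      a.c2 * (2 * w2 * z1 * z2 + w1 * z2 ^ 2) + 3 * a.c3 * w2 * z2 ^ 2
  c3 := a.c0 * z1 ^ 3 + a.c1 * z1 ^ 2 * z2 + a.c2 * z1 * z2 ^ 2 + a.c3 * z2 ^ 3

theorem G_tr {R : Type*} [CommRing R] (a : Coef R) (h0 : a.q0 = 0) (h1 : a.q1 = 0) (h2 : a.q2 = 0)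
    (s t w1 w2 z1 z2 y0 y1 y2 y3 : R) :
    G (a.tr s t w1 w2 z1 z2) y0 y1 y2 y3 =
      G a y0 y1 (s * y1 + w1 * y2 + z1 * y3) (t * y1 + w2 * y2 + z2 * y3) := by
  simp only [G, Coef.tr, h0, h1, h2]
  ring

theorem map_tr {R S : Type*} [CommRing R] [CommRing S] (f : R →+* S) (a : Coef R)
    (s t w1 w2 z1 z2 : R) :
    (a.tr s t w1 w2 z1 z2).map f = (a.map f).tr (f s) (f t) (f w1) (f w2) (f z1) (f z2) := by
  simp only [Coef.map, Coef.tr, map_add, map_mul, map_pow, map_ofNat, map_zero]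

variable {k K : Type*} [Field k] [Field K] [Algebra k K]

theorem hasCurve_of_tr (a : Coef k) (h0 : a.q0 = 0) (h1 : a.q1 = 0) (h2 : a.q2 = 0)
    (s t w1 w2 z1 z2 : k) (hd : w1 * z2 - w2 * z1 ≠ 0)
    (h : HasCurve K (a.tr s t w1 w2 z1 z2)) : HasCurve K a := by
  obtain ⟨p0, p1, p2, p3, hG, ⟨x, x0, x1, x2, x3⟩, hne⟩ := h
  refine ⟨p0, p1, C s * p1 + C w1 * p2 + C z1 * p3, C t * p1 + C w2 * p2 + C z2 * p3, ?_,
    ⟨x, x0, x1, ?_, ?_⟩, ?_⟩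
  · rw [map_tr, G_tr _ (by simp [Coef.map, h0]) (by simp [Coef.map, h1])
      (by simp [Coef.map, h2])] at hG
    exact hG
  · simp [x1, x2, x3]
  · simp [x1, x2, x3]
  · by_contra hcon
    push Not at hcon
    obtain ⟨g1, g2, g3⟩ := hcon
    rw [g1, mul_zero, zero_add] at g2 g3
    have hd' : (C (w1 * z2 - w2 * z1) : k[X]) ≠ 0 := C_ne_zero.2 hd
    have e2 : C (w1 * z2 - w2 * z1) * p2 = 0 := by
      simp only [map_sub, map_mul]
      linear_combination C z2 * g2 - C z1 * g3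
    have e3 : C (w1 * z2 - w2 * z1) * p3 = 0 := by
      simp only [map_sub, map_mul]
      linear_combination C w1 * g3 - C w2 * g2
    rcases hne with h | h | h
    · exact h g1
    · exact h ((mul_eq_zero.1 e2).resolve_left hd')
    · exact h ((mul_eq_zero.1 e3).resolve_left hd')

/-- The discriminant of the double cover. -/
def disc {R : Type*} [CommRing R] (a : Coef R) (s t : R) : R :=
  (a.A + a.B * s + a.B' * t) ^ 2 - 4 * (a.C1 + (a.D2 * s + a.D3 * t) +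
    (a.E0 * s ^ 2 + a.E1 * s * t + a.E2 * t ^ 2) +
      (a.c0 * s ^ 3 + a.c1 * s ^ 2 * t + a.c2 * s * t ^ 2 + a.c3 * t ^ 3))

/-- The resultant of the point `(s, t)` and the direction `(w1, w2)`. -/
def res {R : Type*} [CommRing R] (a : Coef R) (s t w1 w2 : R) : R :=
  disc a s t * ((a.E0 + 3 * a.c0 * s + a.c1 * t) * w1 ^ 2 +
      (a.E1 + 2 * a.c1 * s + 2 * a.c2 * t) * w1 * w2 + (a.E2 + a.c2 * s + 3 * a.c3 * t) * w2 ^ 2) +
    (a.C1 + (a.D2 * s + a.D3 * t) + (a.E0 * s ^ 2 + a.E1 * s * t + a.E2 * t ^ 2) +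
      (a.c0 * s ^ 3 + a.c1 * s ^ 2 * t + a.c2 * s * t ^ 2 + a.c3 * t ^ 3)) *
      (a.B * w1 + a.B' * w2) ^ 2 -
    (a.A + a.B * s + a.B' * t) * (a.B * w1 + a.B' * w2) *
      ((a.D2 + 2 * a.E0 * s + a.E1 * t + 3 * a.c0 * s ^ 2 + 2 * a.c1 * s * t + a.c2 * t ^ 2) * w1 +
      (a.D3 + a.E1 * s + 2 * a.E2 * t + a.c1 * s ^ 2 + 2 * a.c2 * s * t + 3 * a.c3 * t ^ 2) * w2) +
    ((a.D2 + 2 * a.E0 * s + a.E1 * t + 3 * a.c0 * s ^ 2 + 2 * a.c1 * s * t + a.c2 * t ^ 2) * w1 +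
      (a.D3 + a.E1 * s + 2 * a.E2 * t + a.c1 * s ^ 2 + 2 * a.c2 * s * t + 3 * a.c3 * t ^ 2) * w2) ^ 2

theorem case_good (a : Coef k) (h0 : a.q0 = 0) (h1 : a.q1 = 0) (h2 : a.q2 = 0)
    (hc : ∀ s t : k, (s ≠ 0 ∨ t ≠ 0) →
      a.c0 * s ^ 3 + a.c1 * s ^ 2 * t + a.c2 * s * t ^ 2 + a.c3 * t ^ 3 ≠ 0)
    (hΔ : ∀ s t : k, disc a s t ≠ 0) (s t w1 w2 : k) (hw : w1 ≠ 0 ∨ w2 ≠ 0)
    (hR : res a s t w1 w2 ≠ 0) : HasCurve K a := by
  obtain ⟨z1, z2, hz⟩ : ∃ z1 z2 : k, w1 * z2 - w2 * z1 ≠ 0 := by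
    rcases hw with h | h
    · exact ⟨0, 1, by simpa using h⟩
    · exact ⟨1, 0, by simpa using h⟩
  apply hasCurve_of_tr a h0 h1 h2 s t w1 w2 z1 z2 hz
  apply case_conj
  · rfl
  · rfl
  · rfl
  · exact hc w1 w2 hw
  · intro x
    have := hΔ (s + w1 * x) (t + w2 * x)
    convert this using 1
    simp only [disc, Coef.tr]
    ring
  · exact hR

end tr

end Q53.CubicCurve
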