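import Pool.Agent.Q53.CubicCurve.CaseC

/-!
There is always a good direction, and the conclusion for cubic surfaces in normal form.
-/

set_option autoImplicit false

open Polynomial

namespace Q53.CubicCurve

variable {k K : Type*} [Field k] [Field K] [Algebra k K]

theorem exists_sqrt [PerfectField k] (h : (2 : k) = 0) (x : k) : ∃ y : k, y ^ 2 = x := by
  have : CharP k 2 := CharTwo.of_one_ne_zero_of_two_eq_zero one_ne_zero h
  have : ExpChar k 2 := ExpChar.prime Nat.prime_two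
  obtain ⟨y, hy⟩ := surjective_frobenius k 2 x
  exact ⟨y, by simpa [frobenius_def] using hy⟩

theorem exists_cbrt [PerfectField k] (h : (3 : k) = 0) (x : k) : ∃ y : k, y ^ 3 = x := by
  have : CharP k 3 := (CharP.charP_iff_prime_eq_zero Nat.prime_three).2 (by exact_mod_cast h)
  have : ExpChar k 3 := ExpChar.prime Nat.prime_three
  obtain ⟨y, hy⟩ := surjective_frobenius k 3 x
  exact ⟨y, by simpa [frobenius_def] using hy⟩

/-- The vanishing of all the resultants forces a rational line, in odd characteristic. -/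
theorem no_res_odd [PerfectField k] (a : Coef k) (h2 : (2 : k) ≠ 0)
    (hc : ∀ s t : k, (s ≠ 0 ∨ t ≠ 0) →
      a.c0 * s ^ 3 + a.c1 * s ^ 2 * t + a.c2 * s * t ^ 2 + a.c3 * t ^ 3 ≠ 0)
    (hΔ : ∀ s t : k, disc a s t ≠ 0)
    (hR : ∀ s t w1 w2 : k, (w1 ≠ 0 ∨ w2 ≠ 0) → res a s t w1 w2 = 0) : False := by
  have key : ∀ s t : k, (2 * a.B * a.B' - 4 * (a.E1 + 2 * a.c1 * s + 2 * a.c2 * t)) ^ 2 -
      4 * (a.B ^ 2 - 4 * (a.E0 + 3 * a.c0 * s + a.c1 * t)) *
        (a.B' ^ 2 - 4 * (a.E2 + a.c2 * s + 3 * a.c3 * t)) = 0 := by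
    intro s t
    obtain ⟨M, hM⟩ : ∃ M, M = a.A + a.B * s + a.B' * t := ⟨_, rfl⟩
    obtain ⟨f, hf⟩ : ∃ f, f = a.C1 + (a.D2 * s + a.D3 * t) + (a.E0 * s ^ 2 + a.E1 * s * t +
      a.E2 * t ^ 2) + (a.c0 * s ^ 3 + a.c1 * s ^ 2 * t + a.c2 * s * t ^ 2 + a.c3 * t ^ 3) :=
      ⟨_, rfl⟩
    obtain ⟨fs, hfs⟩ : ∃ fs, fs = a.D2 + 2 * a.E0 * s + a.E1 * t + 3 * a.c0 * s ^ 2 +
      2 * a.c1 * s * t + a.c2 * t ^ 2 := ⟨_, rfl⟩
    obtain ⟨ft, hft⟩ : ∃ ft, ft = a.D3 + a.E1 * s + 2 * a.E2 * t + a.c1 * s ^ 2 +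
      2 * a.c2 * s * t + 3 * a.c3 * t ^ 2 := ⟨_, rfl⟩
    obtain ⟨ha, hha⟩ : ∃ ha, ha = a.E0 + 3 * a.c0 * s + a.c1 * t := ⟨_, rfl⟩
    obtain ⟨hb, hhb⟩ : ∃ hb, hb = a.E1 + 2 * a.c1 * s + 2 * a.c2 * t := ⟨_, rfl⟩
    obtain ⟨hd, hhd⟩ : ∃ hd, hd = a.E2 + a.c2 * s + 3 * a.c3 * t := ⟨_, rfl⟩
    have r1 := hR s t 1 0 (Or.inl one_ne_zero)
    have r2 := hR s t 0 1 (Or.inr one_ne_zero)
    have r3 := hR s t 1 1 (Or.inl one_ne_zero)
    have hD := hΔ s t
    simp only [res, disc] at r1 r2 r3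
    simp only [disc] at hD
    rw [← hM, ← hf, ← hfs, ← hft, ← hha, ← hhb, ← hhd] at r1 r2 r3
    rw [← hM, ← hf] at hD
    rw [← hha, ← hhb, ← hhd]
    obtain ⟨Δ, hΔ'⟩ : ∃ Δ, Δ = M ^ 2 - 4 * f := ⟨_, rfl⟩
    rw [← hΔ'] at hD
    have e1 : (2 * M * a.B - 4 * fs) ^ 2 = 4 * Δ * (a.B ^ 2 - 4 * ha) := by
      rw [hΔ']; linear_combination 16 * r1
    have e2 : (2 * M * a.B' - 4 * ft) ^ 2 = 4 * Δ * (a.B' ^ 2 - 4 * hd) := by
      rw [hΔ']; linear_combination 16 * r2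
    have e3 : 2 * (2 * M * a.B - 4 * fs) * (2 * M * a.B' - 4 * ft) =
        4 * Δ * (2 * a.B * a.B' - 4 * hb) := by
      rw [hΔ']; linear_combination 16 * r3 - 16 * r1 - 16 * r2
    have e4 : (4 * Δ * (2 * a.B * a.B' - 4 * hb)) ^ 2 =
        4 * (4 * Δ * (a.B ^ 2 - 4 * ha)) * (4 * Δ * (a.B' ^ 2 - 4 * hd)) := by
      rw [← e1, ← e2, ← e3]; ring
    have h4 : (4 : k) * Δ ≠ 0 := by
      refine mul_ne_zero ?_ hD
      have : (4 : k) = 2 * 2 := by norm_num
      rw [this]; exact mul_ne_zero h2 h2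
    apply (mul_eq_zero.1 _).resolve_left (pow_ne_zero 2 h4)
    linear_combination e4
  have h128 : (128 : k) ≠ 0 := by
    have : (128 : k) = 2 ^ 7 := by norm_num
    rw [this]; exact pow_ne_zero 7 h2
  have k1 : a.c1 ^ 2 = 3 * a.c0 * a.c2 := by
    apply sub_eq_zero.1
    apply (mul_eq_zero.1 _).resolve_left h128
    linear_combination key 1 0 + key (-1) 0 - 2 * key 0 0
  have k3 : a.c2 ^ 2 = 3 * a.c1 * a.c3 := by
    apply sub_eq_zero.1
    apply (mul_eq_zero.1 _).resolve_left h128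
    linear_combination key 0 1 + key 0 (-1) - 2 * key 0 0
  have k2 : a.c1 * a.c2 = 9 * a.c0 * a.c3 := by
    apply sub_eq_zero.1
    apply (mul_eq_zero.1 _).resolve_left h128
    linear_combination key 1 1 + key (-1) (-1) - 2 * key 0 0 - 128 * k1 - 128 * k3
  have hc0 : a.c0 ≠ 0 := by simpa using hc 1 0 (Or.inl one_ne_zero)
  by_cases h3 : (3 : k) = 0
  · have c1 : a.c1 = 0 := by
      rw [h3, zero_mul, zero_mul] at k1
      exact pow_eq_zero_iff two_ne_zero |>.1 k1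
    have c2 : a.c2 = 0 := by
      rw [h3, zero_mul, zero_mul] at k3
      exact pow_eq_zero_iff two_ne_zero |>.1 k3
    obtain ⟨r, hr⟩ := exists_cbrt h3 (a.c3 / a.c0)
    apply hc (-r) 1 (Or.inr one_ne_zero)
    rw [c1, c2]
    rw [eq_div_iff hc0] at hr
    linear_combination -hr
  · apply hc (-a.c1) (3 * a.c0) (Or.inr (mul_ne_zero h3 hc0))
    linear_combination (2 * a.c0 * a.c1) * k1 - 3 * a.c0 ^ 2 * k2

/-- The vanishing of all the resultants forces a rational line, in characteristic two. -/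
theorem no_res_two (a : Coef k) (h2 : (2 : k) = 0)
    (hc : ∀ s t : k, (s ≠ 0 ∨ t ≠ 0) →
      a.c0 * s ^ 3 + a.c1 * s ^ 2 * t + a.c2 * s * t ^ 2 + a.c3 * t ^ 3 ≠ 0)
    (hΔ : ∀ s t : k, disc a s t ≠ 0)
    (hR : ∀ s t w1 w2 : k, (w1 ≠ 0 ∨ w2 ≠ 0) → res a s t w1 w2 = 0) : False := by
  have hD : ∀ s t : k, a.A + a.B * s + a.B' * t ≠ 0 := by
    intro s t h
    apply hΔ s t
    simp only [disc]
    rw [h]
    linear_combination -(2 * (a.C1 + (a.D2 * s + a.D3 * t) +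
    (a.E0 * s ^ 2 + a.E1 * s * t + a.E2 * t ^ 2) +
      (a.c0 * s ^ 3 + a.c1 * s ^ 2 * t + a.c2 * s * t ^ 2 + a.c3 * t ^ 3))) * h2
  have hB : a.B = 0 := by
    by_contra h
    apply hD (-a.A / a.B) 0
    field_simp
    ring
  have hB' : a.B' = 0 := by
    by_contra h
    apply hD 0 (-a.A / a.B')
    field_simp
    ring
  have hA : a.A ≠ 0 := by simpa using hD 0 0
  have hA2 : a.A ^ 2 ≠ 0 := pow_ne_zero 2 hA
  have hc0 : a.c0 ≠ 0 := by simpa using hc 1 0 (Or.inl one_ne_zero)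
  have hc3 : a.c3 ≠ 0 := by simpa using hc 0 1 (Or.inr one_ne_zero)
  have e1 : ∀ s t : k, a.A ^ 2 * (a.E0 + a.c0 * s + a.c1 * t) +
      (a.D2 + a.E1 * t + a.c0 * s ^ 2 + a.c2 * t ^ 2) ^ 2 = 0 := by
    intro s t
    have r := hR s t 1 0 (Or.inl one_ne_zero)
    simp only [res, disc, hB, hB'] at r
    obtain ⟨f, hf⟩ : ∃ f, f = a.C1 + (a.D2 * s + a.D3 * t) + (a.E0 * s ^ 2 + a.E1 * s * t +
      a.E2 * t ^ 2) + (a.c0 * s ^ 3 + a.c1 * s ^ 2 * t + a.c2 * s * t ^ 2 + a.c3 * t ^ 3) :=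
      ⟨_, rfl⟩
    rw [← hf] at r
    linear_combination r - (a.A ^ 2 * a.c0 * s - 2 * f * (a.E0 + 3 * a.c0 * s + a.c1 * t) +
      2 * (a.D2 + a.E1 * t + a.c0 * s ^ 2 + a.c2 * t ^ 2) *
        (a.E0 * s + a.c0 * s ^ 2 + a.c1 * s * t) +
      2 * (a.E0 * s + a.c0 * s ^ 2 + a.c1 * s * t) ^ 2) * h2
  have e2 : ∀ s t : k, a.A ^ 2 * (a.E2 + a.c2 * s + a.c3 * t) +
      (a.D3 + a.E1 * s + a.c1 * s ^ 2 + a.c3 * t ^ 2) ^ 2 = 0 := by
    intro s t
    have r := hR s t 0 1 (Or.inr one_ne_zero)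
    simp only [res, disc, hB, hB'] at r
    obtain ⟨f, hf⟩ : ∃ f, f = a.C1 + (a.D2 * s + a.D3 * t) + (a.E0 * s ^ 2 + a.E1 * s * t +
      a.E2 * t ^ 2) + (a.c0 * s ^ 3 + a.c1 * s ^ 2 * t + a.c2 * s * t ^ 2 + a.c3 * t ^ 3) :=
      ⟨_, rfl⟩
    rw [← hf] at r
    linear_combination r - (a.A ^ 2 * a.c3 * t - 2 * f * (a.E2 + a.c2 * s + 3 * a.c3 * t) +
      2 * (a.D3 + a.E1 * s + a.c1 * s ^ 2 + a.c3 * t ^ 2) *
        (a.E2 * t + a.c2 * s * t + a.c3 * t ^ 2) +
      2 * (a.E2 * t + a.c2 * s * t + a.c3 * t ^ 2) ^ 2) * h2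
  have k1 : a.c2 ^ 2 = a.A ^ 2 * a.c1 := by
    have r := hR 0 0 1 1 (Or.inl one_ne_zero)
    have r1 := hR 0 0 1 0 (Or.inl one_ne_zero)
    have r2 := hR 0 0 0 1 (Or.inr one_ne_zero)
    simp only [res, disc, hB, hB'] at r r1 r2
    have hE : a.E1 = 0 := by
      apply (mul_eq_zero.1 _).resolve_left hA2
      linear_combination r - r1 - r2 + (2 * a.C1 * a.E1 - a.D2 * a.D3) * h2
    have f1 := e1 0 0
    have f2 := e1 0 1
    rw [hE] at f1 f2
    linear_combination f2 - f1 - (a.D2 * a.c2 + a.A ^ 2 * a.c1) * h2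
  have k2 : a.c1 ^ 2 = a.A ^ 2 * a.c2 := by
    have r := hR 0 0 1 1 (Or.inl one_ne_zero)
    have r1 := hR 0 0 1 0 (Or.inl one_ne_zero)
    have r2 := hR 0 0 0 1 (Or.inr one_ne_zero)
    simp only [res, disc, hB, hB'] at r r1 r2
    have hE : a.E1 = 0 := by
      apply (mul_eq_zero.1 _).resolve_left hA2
      linear_combination r - r1 - r2 + (2 * a.C1 * a.E1 - a.D2 * a.D3) * h2
    have f1 := e2 0 0
    have f2 := e2 1 0
    rw [hE] at f1 f2
    linear_combination f2 - f1 - (a.D3 * a.c1 + a.A ^ 2 * a.c2) * h2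
  have k3 : a.c0 = a.A ^ 2 := by
    apply sub_eq_zero.1
    apply (mul_eq_zero.1 _).resolve_left hc0
    linear_combination e1 1 0 - e1 0 0 - (a.D2 * a.c0 + a.A ^ 2 * a.c0) * h2
  have k4 : a.c3 = a.A ^ 2 := by
    apply sub_eq_zero.1
    apply (mul_eq_zero.1 _).resolve_left hc3
    linear_combination e2 0 1 - e2 0 0 - (a.D3 * a.c3 + a.A ^ 2 * a.c3) * h2
  by_cases h1 : a.c1 = 0
  · have h2' : a.c2 = 0 := by
      rw [h1, mul_zero] at k1
      exact pow_eq_zero_iff two_ne_zero |>.1 k1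
    apply hc 1 1 (Or.inl one_ne_zero)
    rw [h1, h2', k3, k4]
    linear_combination a.A ^ 2 * h2
  · have e : a.c1 * (a.c1 ^ 3 - a.A ^ 6) = 0 := by
      linear_combination (a.c1 ^ 2 + a.A ^ 2 * a.c2) * k2 + a.A ^ 4 * k1
    have e' := (mul_eq_zero.1 e).resolve_left h1
    apply hc a.c1 (a.A ^ 2) (Or.inl h1)
    rw [k3, k4]
    linear_combination 3 * a.A ^ 2 * e' - a.c1 * a.A ^ 2 * k2 + 2 * a.A ^ 2 * a.A ^ 6 * h2

/-- Three conjugate lines through the point. -/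
theorem case_lines [PerfectField k] (a : Coef k) (hsm : Smooth K a) (h0 : a.q0 = 0)
    (h1 : a.q1 = 0) (h2 : a.q2 = 0)
    (hc : ∀ s t : k, (s ≠ 0 ∨ t ≠ 0) →
      a.c0 * s ^ 3 + a.c1 * s ^ 2 * t + a.c2 * s * t ^ 2 + a.c3 * t ^ 3 ≠ 0) :
    HasCurve K a := by
  by_cases hΔ : ∀ s t : k, disc a s t ≠ 0
  · by_cases hR : ∀ s t w1 w2 : k, (w1 ≠ 0 ∨ w2 ≠ 0) → res a s t w1 w2 = 0
    · exfalso
      by_cases h : (2 : k) = 0
      · exact no_res_two a h hc hΔ hR
      · exact no_res_odd a h hc hΔ hR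
    · push Not at hR
      obtain ⟨s, t, w1, w2, hw, hr⟩ := hR
      exact case_good a h0 h1 h2 hc hΔ s t w1 w2 hw hr
  · push Not at hΔ
    obtain ⟨s, t, hst⟩ := hΔ
    simp only [disc] at hst
    obtain ⟨M, hM⟩ : ∃ M, M = a.A + a.B * s + a.B' * t := ⟨_, rfl⟩
    obtain ⟨f, hf⟩ : ∃ f, f = a.C1 + (a.D2 * s + a.D3 * t) + (a.E0 * s ^ 2 + a.E1 * s * t +
      a.E2 * t ^ 2) + (a.c0 * s ^ 3 + a.c1 * s ^ 2 * t + a.c2 * s * t ^ 2 + a.c3 * t ^ 3) :=
      ⟨_, rfl⟩
    rw [← hM, ← hf] at hst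
    obtain ⟨y, hy1, hy2⟩ : ∃ y : k, 2 * y + M = 0 ∧ y ^ 2 + y * M + f = 0 := by
      by_cases h : (2 : k) = 0
      · have hM0 : M = 0 := by
          have : M ^ 2 = 0 := by linear_combination hst + 2 * f * h
          exact pow_eq_zero_iff two_ne_zero |>.1 this
        obtain ⟨y, hy⟩ := exists_sqrt h f
        refine ⟨y, ?_, ?_⟩
        · rw [hM0]; linear_combination y * h
        · rw [hM0]; linear_combination hy + f * h
      · refine ⟨-M / 2, ?_, ?_⟩
        · field_simp; ring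
        · field_simp
          linear_combination -hst
    refine case_fixed a hsm h0 h1 h2 hc y s t (by rw [← hM]; exact hy1) ?_
    rw [← hM, ← hf]
    exact hy2

/-- Every smooth cubic surface in normal form over a perfect field has a rational curve through
the point `(1, 0, 0, 0)`. -/
theorem hasCurve [PerfectField k] [IsAlgClosed K] (a : Coef k) (hsm : Smooth K a) :
    HasCurve K a := by
  by_cases hk : ∃ s t : k, (s ≠ 0 ∨ t ≠ 0) ∧ a.q0 * s ^ 2 + a.q1 * s * t + a.q2 * t ^ 2 = 0 ∧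
      a.c0 * s ^ 3 + a.c1 * s ^ 2 * t + a.c2 * s * t ^ 2 + a.c3 * t ^ 3 = 0
  · obtain ⟨s, t, h1, h2, h3⟩ := hk
    exact case_line a s t h1 h2 h3
  push Not at hk
  by_cases hq : a.q0 ≠ 0 ∨ a.q1 ≠ 0 ∨ a.q2 ≠ 0
  swap
  · push Not at hq
    obtain ⟨h0, h1, h2⟩ := hq
    apply case_lines a hsm h0 h1 h2
    intro s t hst
    exact hk s t hst (by rw [h0, h1, h2]; ring)
  by_cases hK : ∀ s t : K, (s ≠ 0 ∨ t ≠ 0) →
      algebraMap k K a.q0 * s ^ 2 + algebraMap k K a.q1 * s * t + algebraMap k K a.q2 * t ^ 2 = 0 →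
      algebraMap k K a.c0 * s ^ 3 + algebraMap k K a.c1 * s ^ 2 * t +
        algebraMap k K a.c2 * s * t ^ 2 + algebraMap k K a.c3 * t ^ 3 ≠ 0
  · exact case_tangent a hK hq
  push Not at hK
  obtain ⟨s, t, hst, hqK, hcK⟩ := hK
  -- no rational point is proportional to the common zero
  have hrat : ∀ u v : k, (u ≠ 0 ∨ v ≠ 0) → algebraMap k K v * s ≠ algebraMap k K u * t := by
    intro u v huv he
    -- `(s, t)` is a multiple of `(u, v)`
    obtain ⟨l, hl, hs, ht⟩ : ∃ l : K, l ≠ 0 ∧ s = l * algebraMap k K u ∧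
        t = l * algebraMap k K v := by
      rcases huv with h | h
      · have hu : algebraMap k K u ≠ 0 := (map_ne_zero (algebraMap k K)).2 h
        refine ⟨s / algebraMap k K u, ?_, ?_, ?_⟩
        · intro h0
          have hs : s = 0 := by
            rcases div_eq_zero_iff.1 h0 with h | h
            · exact h
            · exact absurd h hu
          rw [hs, mul_zero] at he
          have ht : t = 0 := (mul_eq_zero.1 he.symm).resolve_left hu
          rcases hst with h | h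
          · exact h hs
          · exact h ht
        · field_simp
        · field_simp
          linear_combination -he
      · have hv : algebraMap k K v ≠ 0 := (map_ne_zero (algebraMap k K)).2 h
        refine ⟨t / algebraMap k K v, ?_, ?_, ?_⟩
        · intro h0
          have ht : t = 0 := by
            rcases div_eq_zero_iff.1 h0 with h | h
            · exact h
            · exact absurd h hv
          rw [ht, mul_zero] at he
          have hs : s = 0 := (mul_eq_zero.1 he).resolve_left hv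
          rcases hst with h | h
          · exact h hs
          · exact h ht
        · field_simp
          linear_combination he
        · field_simp
    apply hk u v huv
    · apply (algebraMap k K).injective
      apply (mul_eq_zero.1 _).resolve_left (pow_ne_zero 2 hl) |>.trans (map_zero _).symm
      rw [hs, ht] at hqK
      simp only [map_add, map_mul, map_pow]
      linear_combination hqK
    · apply (algebraMap k K).injective
      apply (mul_eq_zero.1 _).resolve_left (pow_ne_zero 3 hl) |>.trans (map_zero _).symm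
      rw [hs, ht] at hcK
      simp only [map_add, map_mul, map_pow]
      linear_combination hcK
  have ht : t ≠ 0 := by
    intro h
    apply hrat 1 0 (Or.inl one_ne_zero)
    rw [h]; simp
  obtain ⟨θ, hθ⟩ : ∃ θ, θ = s / t := ⟨_, rfl⟩
  have hs : s = θ * t := by rw [hθ]; field_simp
  have hθk : ∀ u : k, θ ≠ algebraMap k K u := by
    intro u hu
    apply hrat u 1 (Or.inr one_ne_zero)
    rw [hs, hu, map_one, one_mul]
  have hθq : algebraMap k K a.q0 * θ ^ 2 + algebraMap k K a.q1 * θ + algebraMap k K a.q2 = 0 := by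
    apply (mul_eq_zero.1 _).resolve_left (pow_ne_zero 2 ht)
    rw [hs] at hqK
    linear_combination hqK
  have hθc : algebraMap k K a.c0 * θ ^ 3 + algebraMap k K a.c1 * θ ^ 2 +
      algebraMap k K a.c2 * θ + algebraMap k K a.c3 = 0 := by
    apply (mul_eq_zero.1 _).resolve_left (pow_ne_zero 3 ht)
    rw [hs] at hcK
    linear_combination hcK
  -- linear relations are trivial
  have hlin : ∀ u v : k, algebraMap k K u * θ + algebraMap k K v = 0 → u = 0 ∧ v = 0 := by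
    intro u v h
    have hu : u = 0 := by
      by_contra hu
      have hu' : algebraMap k K u ≠ 0 := (map_ne_zero (algebraMap k K)).2 hu
      apply hθk (-v / u)
      rw [map_div₀, map_neg, eq_div_iff hu']
      linear_combination h
    rw [hu, map_zero, zero_mul, zero_add] at h
    exact ⟨hu, (algebraMap k K).injective (h.trans (map_zero _).symm)⟩
  have hq0 : a.q0 ≠ 0 := by
    intro h0
    rw [h0, map_zero, zero_mul, zero_add] at hθq
    obtain ⟨h1, h2⟩ := hlin _ _ hθq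
    rcases hq with h | h | h
    · exact h h0
    · exact h h1
    · exact h h2
  obtain ⟨m2, hm2⟩ : ∃ m, m = a.c0 / a.q0 := ⟨_, rfl⟩
  have e0 : a.c0 = a.q0 * m2 := by rw [hm2]; field_simp
  obtain ⟨m3, hm3⟩ : ∃ m, m = (a.c1 - a.q1 * m2) / a.q0 := ⟨_, rfl⟩
  have e1 : a.c1 = a.q0 * m3 + a.q1 * m2 := by rw [hm3]; field_simp; ring
  obtain ⟨e2, e3⟩ := hlin (a.c2 - a.q1 * m3 - a.q2 * m2) (a.c3 - a.q2 * m3) (by
    rw [e0, e1] at hθc
    simp only [map_add, map_sub, map_mul] at hθc ⊢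
    linear_combination hθc - (algebraMap k K m2 * θ + algebraMap k K m3) * hθq)
  refine case_quad a hsm m2 m3 e0 e1 (by linear_combination e2) (by linear_combination e3) hq0 ?_
  intro hΔ
  have hsq : (2 * algebraMap k K a.q0 * θ + algebraMap k K a.q1) ^ 2 = 0 := by
    have := congrArg (algebraMap k K) hΔ
    simp only [map_sub, map_mul, map_pow, map_ofNat, map_zero] at this
    linear_combination this + 4 * algebraMap k K a.q0 * hθq
  have hsq' : 2 * algebraMap k K a.q0 * θ + algebraMap k K a.q1 = 0 :=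
    pow_eq_zero_iff two_ne_zero |>.1 hsq
  obtain ⟨h1, h2⟩ := hlin (2 * a.q0) a.q1 (by
    rw [map_mul, map_ofNat]; exact hsq')
  have h2' : (2 : k) = 0 := (mul_eq_zero.1 h1).resolve_right hq0
  obtain ⟨r, hr⟩ := exists_sqrt h2' (a.q2 / a.q0)
  have hr' : a.q0 * r ^ 2 = a.q2 := by rw [hr]; field_simp
  apply hθk r
  have h2K : (2 : K) = 0 := by
    have := congrArg (algebraMap k K) h2'
    simpa only [map_ofNat, map_zero] using this
  have hq0K : algebraMap k K a.q0 ≠ 0 := (map_ne_zero (algebraMap k K)).2 hq0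
  have : (θ - algebraMap k K r) ^ 2 = 0 := by
    apply (mul_eq_zero.1 _).resolve_left hq0K
    rw [h2, map_zero, ← hr'] at hθq
    simp only [map_mul, map_pow] at hθq
    linear_combination hθq - algebraMap k K a.q0 * θ * algebraMap k K r * h2K
  exact sub_eq_zero.1 (pow_eq_zero_iff two_ne_zero |>.1 this)

end Q53.CubicCurve
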