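import Pool.Agent.Q53.CubicCurve.Transport

/-!
Rational curves through the rational points of smooth cubic surfaces.
-/

set_option autoImplicit false

open Polynomial

namespace Q53.CubicCurve

section general

variable {k K : Type*} [Field k] [Field K] [Algebra k K]

theorem aeval_G {S : Type*} [CommRing S] [Algebra k S] (a : Coef k) (y : Fin 4 → S) :
    MvPolynomial.aeval y (G (a.map MvPolynomial.C) (MvPolynomial.X 0) (MvPolynomial.X 1)
      (MvPolynomial.X 2) (MvPolynomial.X 3)) =
      G (a.map (algebraMap k S)) (y 0) (y 1) (y 2) (y 3) := by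
  simp only [G, Coef.map, map_add, map_mul, map_pow, MvPolynomial.aeval_X, MvPolynomial.aeval_C]

theorem aeval_pderiv_G {S : Type*} [CommRing S] [Algebra k S] (a : Coef k) (y : Fin 4 → S)
    (hG : G0 (a.map (algebraMap k S)) (y 0) (y 1) (y 2) (y 3) = 0 ∧
      G1 (a.map (algebraMap k S)) (y 0) (y 1) (y 2) (y 3) = 0 ∧
      G2 (a.map (algebraMap k S)) (y 0) (y 1) (y 2) (y 3) = 0 ∧
      G3 (a.map (algebraMap k S)) (y 0) (y 1) (y 2) (y 3) = 0) (m : Fin 4) :
    MvPolynomial.aeval y (MvPolynomial.pderiv m (G (a.map MvPolynomial.C) (MvPolynomial.X 0)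
      (MvPolynomial.X 1) (MvPolynomial.X 2) (MvPolynomial.X 3))) = 0 := by
  obtain ⟨h0, h1, h2, h3⟩ := hG
  fin_cases m
  · rw [← h0]
    simp [G, G0, Coef.map, Derivation.leibniz, MvPolynomial.pderiv_X, Derivation.leibniz_pow]
    ring
  · rw [← h1]
    simp [G, G1, Coef.map, Derivation.leibniz, MvPolynomial.pderiv_X, Derivation.leibniz_pow]
    ring
  · rw [← h2]
    simp [G, G2, Coef.map, Derivation.leibniz, MvPolynomial.pderiv_X, Derivation.leibniz_pow]
    ring
  · rw [← h3]
    simp [G, G3, Coef.map, Derivation.leibniz, MvPolynomial.pderiv_X, Derivation.leibniz_pow]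
    ring

theorem aeval_lin (b : Matrix (Fin 4) (Fin 4) k) {S : Type*} [CommRing S] [Algebra k S]
    (y : Fin 4 → S) (p : MvPolynomial (Fin 4) k) :
    MvPolynomial.aeval y (MvPolynomial.aeval (fun i => ∑ m, MvPolynomial.C (b m i) *
      MvPolynomial.X m : Fin 4 → MvPolynomial (Fin 4) k) p) =
      MvPolynomial.aeval (fun i => ∑ m, algebraMap k S (b m i) * y m) p := by
  rw [MvPolynomial.comp_aeval_apply]
  congr 1
  congr 1
  ext i
  simp

/-- A rational curve through a rational point of a smooth cubic surface. -/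
theorem exists_curve [PerfectField k] [IsAlgClosed K] (F : MvPolynomial (Fin 4) k)
    (hF : F.IsHomogeneous 3)
    (hsm : ∀ y : Fin 4 → K, y ≠ 0 → MvPolynomial.aeval y F = 0 →
      ∃ i, MvPolynomial.aeval y (MvPolynomial.pderiv i F) ≠ 0)
    (x : Fin 4 → k) (hx : x ≠ 0) (hFx : MvPolynomial.eval x F = 0) :
    ∃ P : Fin 4 → k[X], MvPolynomial.aeval P F = 0 ∧
      (∃ t c : K, c ≠ 0 ∧ ∀ i, aeval t (P i) = c * algebraMap k K (x i)) ∧
      ¬ ∃ g : k[X], ∀ i, P i = g * C (x i) := by
  have hae : ∀ p : MvPolynomial (Fin 4) k, MvPolynomial.aeval (fun i => algebraMap k K (x i)) p =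
      algebraMap k K (MvPolynomial.eval x p) := by
    intro p
    exact MvPolynomial.aeval_algebraMap_apply K x p
  obtain ⟨φ, hφd⟩ : ∃ φ : Fin 4 → k, φ = fun i => MvPolynomial.eval x (MvPolynomial.pderiv i F) :=
    ⟨_, rfl⟩
  have hφ : φ ≠ 0 := by
    obtain ⟨i, hi⟩ := hsm (fun i => algebraMap k K (x i)) (by
      intro h
      apply hx
      ext i
      apply (algebraMap k K).injective
      rw [Pi.zero_apply, map_zero]
      exact congrFun h i) (by rw [hae, hFx, map_zero])
    intro h
    apply hi
    rw [hae]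
    have := congrFun h i
    rw [hφd] at this
    simp only [Pi.zero_apply] at this
    rw [this, map_zero]
  have hφx : ∑ i, φ i * x i = 0 := by
    have h := congrArg (MvPolynomial.eval x) hF.sum_X_mul_pderiv
    simp only [map_sum, map_mul, MvPolynomial.eval_X, map_nsmul, hFx, smul_zero] at h
    rw [← h, hφd]
    exact Finset.sum_congr rfl fun i _ => mul_comm _ _
  obtain ⟨b, hb, hb0, hb1, hb2, hb3⟩ := exists_basis x φ hx hφ hφx
  obtain ⟨g, hg⟩ : ∃ g : Fin 4 → MvPolynomial (Fin 4) k,
    g = fun i => ∑ m, MvPolynomial.C (b m i) * MvPolynomial.X m := ⟨_, rfl⟩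
  have hgh : ∀ i, (g i).IsHomogeneous 1 := by
    intro i
    rw [hg]
    apply MvPolynomial.IsHomogeneous.sum
    intro m _
    have := (MvPolynomial.isHomogeneous_C (Fin 4) (b m i)).mul (MvPolynomial.isHomogeneous_X k m)
    simpa using this
  have hF' : (MvPolynomial.aeval g F).IsHomogeneous 3 := by
    have := hF.aeval g hgh
    simpa using this
  have hpd : ∀ i m, MvPolynomial.pderiv m (g i) = MvPolynomial.C (b m i) := by
    intro i m
    rw [hg]
    simp [Derivation.leibniz, MvPolynomial.pderiv_X, Pi.single_apply]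
  have hgx : ∀ p : MvPolynomial (Fin 4) k, MvPolynomial.eval ![1, 0, 0, 0]
      (MvPolynomial.aeval g p) = MvPolynomial.eval x p := by
    intro p
    have e : (MvPolynomial.aeval ![1, 0, 0, 0] : MvPolynomial (Fin 4) k →ₐ[k] k)
        (MvPolynomial.aeval g p) = MvPolynomial.aeval x p := by
      rw [hg, aeval_lin]
      congr 1
      congr 1
      ext i
      simp [Fin.sum_univ_four, hb0]
    exact e
  have hchain : ∀ m, MvPolynomial.pderiv m (MvPolynomial.aeval g F) =
      ∑ i, MvPolynomial.aeval g (MvPolynomial.pderiv i F) * MvPolynomial.C (b m i) := by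
    intro m
    rw [pderiv_aeval']
    exact Finset.sum_congr rfl fun i _ => by rw [hpd]
  have hpx : ∀ m, MvPolynomial.eval ![1, 0, 0, 0] (MvPolynomial.pderiv m
      (MvPolynomial.aeval g F)) = ∑ i, φ i * b m i := by
    intro m
    rw [hchain, map_sum]
    refine Finset.sum_congr rfl fun i _ => ?_
    rw [map_mul, hgx, MvPolynomial.eval_C, hφd]
  obtain ⟨a, ha⟩ := normal_form (MvPolynomial.aeval g F) hF' (by rw [hgx, hFx])
    (by rw [hpx, hb1]) (by rw [hpx, hb2]) (by rw [hpx, hb3])
  have hsma : Smooth K a := by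
    intro y0 y1 y2 y3 hy hG
    by_contra hcon
    push Not at hcon
    have hne : (![y0, y1, y2, y3] : Fin 4 → K) ≠ 0 := by
      intro h
      have h0 := congrFun h 0
      have h1 := congrFun h 1
      have h2 := congrFun h 2
      have h3 := congrFun h 3
      simp at h0 h1 h2 h3
      rcases hy with h | h | h | h
      · exact h h0
      · exact h h1
      · exact h h2
      · exact h h3
    have hz : ∀ p : MvPolynomial (Fin 4) k, MvPolynomial.aeval ![y0, y1, y2, y3]
        (MvPolynomial.aeval g p) =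
        MvPolynomial.aeval (fun i => ∑ m, algebraMap k K (b m i) * ![y0, y1, y2, y3] m) p := by
      intro p
      rw [hg]
      exact aeval_lin _ _ _
    obtain ⟨i, hi⟩ := hsm (fun i => ∑ m, algebraMap k K (b m i) * ![y0, y1, y2, y3] m) (by
      intro h
      apply hne
      exact inj_left b hb _ (fun i => congrFun h i)) (by
      rw [← hz, ha, aeval_G]
      simpa using hG)
    apply hi
    have hD : (fun i => MvPolynomial.aeval (fun i => ∑ m, algebraMap k K (b m i) *
        ![y0, y1, y2, y3] m) (MvPolynomial.pderiv i F)) = 0 := by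
      apply inj_right b hb
      intro m
      have h1 : MvPolynomial.aeval ![y0, y1, y2, y3] (MvPolynomial.pderiv m
          (MvPolynomial.aeval g F)) = 0 := by
        rw [ha]
        exact aeval_pderiv_G a ![y0, y1, y2, y3] (by simpa using hcon) m
      rw [hchain, map_sum] at h1
      rw [← h1]
      refine Finset.sum_congr rfl fun i _ => ?_
      rw [map_mul, hz, MvPolynomial.aeval_C]
    exact congrFun hD i
  obtain ⟨p0, p1, p2, p3, hGp, ⟨t, t0, t1, t2, t3⟩, hne⟩ := hasCurve a hsma
  refine ⟨fun i => ∑ m, C (b m i) * ![p0, p1, p2, p3] m, ?_, ⟨t, aeval t p0, t0, ?_⟩, ?_⟩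
  · have e : MvPolynomial.aeval ![p0, p1, p2, p3] (MvPolynomial.aeval g F) = 0 := by
      rw [ha, aeval_G]
      exact hGp
    rw [← e, hg]
    exact (aeval_lin _ _ _).symm
  · intro i
    simp only [Fin.sum_univ_four, map_add, map_mul]
    simp [t1, t2, t3, hb0, mul_comm]
  · rintro ⟨h, hh⟩
    have h0 : (![p0 - h, p1, p2, p3] : Fin 4 → k[X]) = 0 := by
      apply inj_left b hb
      intro i
      have := hh i
      simp only [Fin.sum_univ_four] at this ⊢
      rw [← hb0] at this
      simp at this ⊢
      linear_combination this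
    have h1 := congrFun h0 1
    have h2 := congrFun h0 2
    have h3 := congrFun h0 3
    simp at h1 h2 h3
    rcases hne with h | h | h
    · exact h h1
    · exact h h2
    · exact h h3

end general

end Q53.CubicCurve
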