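import Pool.Agent.Q53.CubicCurve.General

/-!
From a parametrisation by polynomials to a morphism from the projective line.
-/

set_option autoImplicit false

open Polynomial

namespace Q53.CubicCurve

variable {k K : Type*} [Field k] [Field K] [Algebra k K]

theorem aeval_mul_cubic {S : Type*} [CommRing S] [Algebra k S] (F : MvPolynomial (Fin 4) k)
    (hF : F.IsHomogeneous 3) (g : S) (Q : Fin 4 → S) :
    MvPolynomial.aeval (fun i => g * Q i) F = g ^ 3 * MvPolynomial.aeval Q F := by
  obtain ⟨a, ha⟩ := exists_tensor F hF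
  rw [ha]
  simp only [map_sum, map_mul, MvPolynomial.aeval_X, MvPolynomial.aeval_C, Finset.mul_sum]
  refine Finset.sum_congr rfl fun i _ => Finset.sum_congr rfl fun j _ =>
    Finset.sum_congr rfl fun l _ => ?_
  ring

theorem aeval_homogenize_zero (p : k[X]) (n : ℕ) (y : Fin 2 → K) (hy : y 1 = 0) :
    MvPolynomial.aeval y (p.homogenize n) = algebraMap k K (p.coeff n) * y 0 ^ n := by
  rw [homogenize, map_sum, Finset.sum_eq_single (n, 0)]
  · simp [MvPolynomial.aeval_monomial, Finsupp.update_eq_add_single,
      Finsupp.prod_single_index]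
  · rintro ⟨i, j⟩ hij hne
    have hj : j ≠ 0 := by
      rintro rfl
      simp at hij
      exact hne (by rw [hij])
    simp [MvPolynomial.aeval_monomial, Finsupp.update_eq_add_single, Finsupp.prod_add_index',
      Finsupp.prod_single_index, pow_add, hy, hj]
  · simp

theorem aeval_homogenize_ne (p : k[X]) (n : ℕ) (hn : p.natDegree ≤ n) (y : Fin 2 → K)
    (hy : y 1 ≠ 0) :
    MvPolynomial.aeval y (p.homogenize n) = aeval (y 0 / y 1) p * y 1 ^ n := by
  have h := eval_homogenize (K := K) (p := p.map (algebraMap k K)) (n := n)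
    ((natDegree_map_le).trans hn) y hy
  rw [homogenize_map, MvPolynomial.eval_map, eval_map] at h
  exact h

/-- A family of polynomials without a common factor. -/
theorem exists_primitive (P : Fin 4 → k[X]) (hP : P ≠ 0) :
    ∃ (g : k[X]) (Q r : Fin 4 → k[X]), g ≠ 0 ∧ (∀ i, P i = g * Q i) ∧ ∑ i, r i * Q i = 1 := by
  obtain ⟨g, hg⟩ : ∃ g, Ideal.span (Set.range P) = Ideal.span {g} :=
    (IsPrincipalIdealRing.principal (Ideal.span (Set.range P))).principal
  have h1 : ∀ i, ∃ q, P i = g * q := by
    intro i
    have : P i ∈ Ideal.span {g} := by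
      rw [← hg]; exact Ideal.subset_span ⟨i, rfl⟩
    exact Ideal.mem_span_singleton.1 this
  choose Q hQ using h1
  have h2 : g ∈ Ideal.span (Set.range P) := by
    rw [hg]; exact Ideal.mem_span_singleton_self g
  rw [Ideal.mem_span_range_iff_exists_fun] at h2
  obtain ⟨r, hr⟩ := h2
  have hg0 : g ≠ 0 := by
    rintro rfl
    apply hP
    ext1 i
    rw [hQ i, zero_mul]; rfl
  refine ⟨g, Q, r, hg0, hQ, ?_⟩
  apply mul_left_cancel₀ hg0
  rw [mul_one]
  conv_rhs => rw [← hr]
  rw [Finset.mul_sum]
  refine Finset.sum_congr rfl fun i _ => ?_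
  rw [hQ i]; ring

/-- The parametrised curve gives a non-constant morphism from the projective line. -/
theorem exists_morphism (F : MvPolynomial (Fin 4) k) (hF : F.IsHomogeneous 3)
    (x : Fin 4 → k) (hx : x ≠ 0) (P : Fin 4 → k[X]) (hP : MvPolynomial.aeval P F = 0)
    (t c : K) (hc : c ≠ 0) (hPt : ∀ i, aeval t (P i) = c * algebraMap k K (x i))
    (hne : ¬ ∃ g : k[X], ∀ i, P i = g * C (x i)) :
    ∃ (n : ℕ) (H : Fin 4 → MvPolynomial (Fin 2) k), 0 < n ∧ (∀ i, (H i).IsHomogeneous n) ∧
      (∀ y : Fin 2 → K, y ≠ 0 → ∃ i, MvPolynomial.aeval y (H i) ≠ 0) ∧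
      MvPolynomial.aeval H F = 0 ∧
      ∃ (y : Fin 2 → K) (d : K), y ≠ 0 ∧ d ≠ 0 ∧
        ∀ i, MvPolynomial.aeval y (H i) = d * algebraMap k K (x i) := by
  obtain ⟨j, hj⟩ := Function.ne_iff.1 hx
  have hj' : x j ≠ 0 := hj
  have hjK : algebraMap k K (x j) ≠ 0 := (map_ne_zero (algebraMap k K)).2 hj'
  have hP0 : P ≠ 0 := by
    rintro rfl
    have := hPt j
    simp only [Pi.zero_apply, map_zero] at this
    exact (mul_ne_zero hc hjK) this.symm
  obtain ⟨g, Q, r, hg0, hQ, hr⟩ := exists_primitive P hP0
  have hQF : MvPolynomial.aeval Q F = 0 := by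
    have h1 := aeval_mul_cubic F hF g Q
    have h2 : (fun i => g * Q i) = P := by ext1 i; rw [hQ i]
    rw [h2, hP] at h1
    exact (mul_eq_zero.1 h1.symm).resolve_left (pow_ne_zero 3 hg0)
  have hgt : aeval t g ≠ 0 := by
    intro h
    have := hPt j
    rw [hQ j, map_mul, h, zero_mul] at this
    exact (mul_ne_zero hc hjK) this.symm
  have hQt : ∀ i, aeval t (Q i) = c / aeval t g * algebraMap k K (x i) := by
    intro i
    have := hPt i
    rw [hQ i, map_mul] at this
    field_simp
    linear_combination this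
  obtain ⟨n, hn⟩ : ∃ n, n = Finset.univ.sup (fun i => (Q i).natDegree) := ⟨_, rfl⟩
  have hle : ∀ i, (Q i).natDegree ≤ n := by
    intro i
    rw [hn]
    exact Finset.le_sup (f := fun i => (Q i).natDegree) (Finset.mem_univ i)
  have hpos : 0 < n := by
    by_contra hn0
    have hn0' : n = 0 := by omega
    apply hne
    have hconst : ∀ i, Q i = C ((Q i).coeff 0) := by
      intro i
      apply eq_C_of_natDegree_eq_zero
      have := hle i
      omega
    have hK : ∀ i, algebraMap k K ((Q i).coeff 0) = c / aeval t g * algebraMap k K (x i) := by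
      intro i
      rw [← hQt i]
      conv_rhs => rw [hconst i]
      rw [aeval_C]
    have hprop : ∀ i, (Q i).coeff 0 = (Q j).coeff 0 / x j * x i := by
      intro i
      apply (algebraMap k K).injective
      rw [map_mul, map_div₀, hK i, hK j]
      field_simp
    refine ⟨g * C ((Q j).coeff 0 / x j), fun i => ?_⟩
    rw [hQ i, hconst i, hprop i, map_mul]
    ring
  refine ⟨n, fun i => (Q i).homogenize n, hpos, fun i => isHomogeneous_homogenize _, ?_, ?_,
    ![t, 1], c / aeval t g, ?_, div_ne_zero hc hgt, ?_⟩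
  · intro y hy
    by_contra hcon
    push Not at hcon
    by_cases hy1 : y 1 = 0
    · have hy0 : y 0 ≠ 0 := by
        intro h0
        apply hy
        ext i
        fin_cases i
        · exact h0
        · exact hy1
      have hco : ∀ i, (Q i).coeff n = 0 := by
        intro i
        have h := hcon i
        rw [aeval_homogenize_zero _ _ _ hy1] at h
        have h' := (mul_eq_zero.1 h).resolve_right (pow_ne_zero n hy0)
        exact (map_eq_zero_iff _ (algebraMap k K).injective).1 h'
      obtain ⟨i, _, hi⟩ := Finset.exists_mem_eq_sup (Finset.univ : Finset (Fin 4))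
        Finset.univ_nonempty (fun i => (Q i).natDegree)
      rw [← hn] at hi
      have h1 := hco i
      rw [hi, coeff_natDegree, leadingCoeff_eq_zero] at h1
      rw [h1, natDegree_zero] at hi
      omega
    · have h1 := congrArg (aeval (y 0 / y 1)) hr
      rw [map_sum, map_one] at h1
      apply one_ne_zero (α := K)
      rw [← h1]
      refine Finset.sum_eq_zero fun i _ => ?_
      have h := hcon i
      rw [aeval_homogenize_ne _ _ (hle i) _ hy1] at h
      rw [map_mul, (mul_eq_zero.1 h).resolve_right (pow_ne_zero n hy1), mul_zero]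
  · have hhom : (MvPolynomial.aeval (fun i => (Q i).homogenize n) F).IsHomogeneous (n * 3) :=
      hF.aeval _ fun i => isHomogeneous_homogenize _
    have h0 : MvPolynomial.aeval (![X, 1] : Fin 2 → k[X])
        (MvPolynomial.aeval (fun i => (Q i).homogenize n) F) = 0 := by
      rw [MvPolynomial.comp_aeval_apply]
      have : (fun i => MvPolynomial.aeval (![X, 1] : Fin 2 → k[X]) ((Q i).homogenize n)) = Q := by
        ext1 i
        exact aeval_homogenize_X_one _ (hle i)
      rw [this, hQF]
    have h1 := homogenize_eq_of_isHomogeneous hhom h0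
    rw [← h1, homogenize_zero]
  · intro h
    have := congrFun h 1
    simp at this
  · intro i
    rw [aeval_homogenize_of_eq_one (hle i) _ (by simp)]
    exact hQt i

end Q53.CubicCurve
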