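import Mathlib

/-!
Cubic forms `y0² y1 + y0 Q(y1, y2, y3) + C(y1, y2, y3)` in normal form at the point `(1, 0, 0, 0)`.
-/

set_option autoImplicit false

open Polynomial

namespace Q53.CubicCurve

/-- The coefficients of a cubic form in normal form. -/
structure Coef (R : Type*) where
  A : R
  B : R
  B' : R
  q0 : R
  q1 : R
  q2 : R
  C1 : R
  D2 : R
  D3 : R
  E0 : R
  E1 : R
  E2 : R
  c0 : R
  c1 : R
  c2 : R
  c3 : R

/-- The image of the coefficients under a map. -/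
def Coef.map {R S : Type*} (f : R → S) (a : Coef R) : Coef S :=
  ⟨f a.A, f a.B, f a.B', f a.q0, f a.q1, f a.q2, f a.C1, f a.D2, f a.D3, f a.E0, f a.E1, f a.E2,
    f a.c0, f a.c1, f a.c2, f a.c3⟩

section forms

variable {R : Type*} [CommRing R] (a : Coef R) (y0 y1 y2 y3 : R)

/-- The value of the form. -/
def G : R :=
  y0 ^ 2 * y1 + y0 * (a.A * y1 ^ 2 + y1 * (a.B * y2 + a.B' * y3) +
      (a.q0 * y2 ^ 2 + a.q1 * y2 * y3 + a.q2 * y3 ^ 2)) +
    (a.C1 * y1 ^ 3 + y1 ^ 2 * (a.D2 * y2 + a.D3 * y3) +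
      y1 * (a.E0 * y2 ^ 2 + a.E1 * y2 * y3 + a.E2 * y3 ^ 2) +
      (a.c0 * y2 ^ 3 + a.c1 * y2 ^ 2 * y3 + a.c2 * y2 * y3 ^ 2 + a.c3 * y3 ^ 3))

/-- The derivative with respect to `y0`. -/
def G0 : R :=
  2 * y0 * y1 + (a.A * y1 ^ 2 + y1 * (a.B * y2 + a.B' * y3) +
      (a.q0 * y2 ^ 2 + a.q1 * y2 * y3 + a.q2 * y3 ^ 2))

/-- The derivative with respect to `y1`. -/
def G1 : R :=
  y0 ^ 2 + y0 * (2 * a.A * y1 + (a.B * y2 + a.B' * y3)) +
    (3 * a.C1 * y1 ^ 2 + 2 * y1 * (a.D2 * y2 + a.D3 * y3) +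
      (a.E0 * y2 ^ 2 + a.E1 * y2 * y3 + a.E2 * y3 ^ 2))

/-- The derivative with respect to `y2`. -/
def G2 : R :=
  y0 * (y1 * a.B + (2 * a.q0 * y2 + a.q1 * y3)) +
    (y1 ^ 2 * a.D2 + y1 * (2 * a.E0 * y2 + a.E1 * y3) +
      (3 * a.c0 * y2 ^ 2 + 2 * a.c1 * y2 * y3 + a.c2 * y3 ^ 2))

/-- The derivative with respect to `y3`. -/
def G3 : R :=
  y0 * (y1 * a.B' + (a.q1 * y2 + 2 * a.q2 * y3)) +
    (y1 ^ 2 * a.D3 + y1 * (a.E1 * y2 + 2 * a.E2 * y3) +
      (a.c1 * y2 ^ 2 + 2 * a.c2 * y2 * y3 + 3 * a.c3 * y3 ^ 2))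

end forms

/-- The cubic surface is smooth. -/
def Smooth {k : Type*} (K : Type*) [Field k] [Field K] [Algebra k K] (a : Coef k) : Prop :=
  ∀ y0 y1 y2 y3 : K, (y0 ≠ 0 ∨ y1 ≠ 0 ∨ y2 ≠ 0 ∨ y3 ≠ 0) →
    G (a.map (algebraMap k K)) y0 y1 y2 y3 = 0 →
    G0 (a.map (algebraMap k K)) y0 y1 y2 y3 ≠ 0 ∨ G1 (a.map (algebraMap k K)) y0 y1 y2 y3 ≠ 0 ∨
    G2 (a.map (algebraMap k K)) y0 y1 y2 y3 ≠ 0 ∨ G3 (a.map (algebraMap k K)) y0 y1 y2 y3 ≠ 0

/-- There is a rational curve through `(1, 0, 0, 0)`. -/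
def HasCurve {k : Type*} (K : Type*) [Field k] [Field K] [Algebra k K] (a : Coef k) : Prop :=
  ∃ p0 p1 p2 p3 : k[X], G (a.map C) p0 p1 p2 p3 = 0 ∧
    (∃ t : K, aeval t p0 ≠ 0 ∧ aeval t p1 = 0 ∧ aeval t p2 = 0 ∧ aeval t p3 = 0) ∧
    (p1 ≠ 0 ∨ p2 ≠ 0 ∨ p3 ≠ 0)

section cases

variable {k K : Type*} [Field k] [Field K] [Algebra k K] (a : Coef k)

/-- There is a line through the point. -/
theorem case_line (s t : k) (hst : s ≠ 0 ∨ t ≠ 0)
    (hq : a.q0 * s ^ 2 + a.q1 * s * t + a.q2 * t ^ 2 = 0)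
    (hc : a.c0 * s ^ 3 + a.c1 * s ^ 2 * t + a.c2 * s * t ^ 2 + a.c3 * t ^ 3 = 0) :
    HasCurve K a := by
  refine ⟨1, 0, C s * X, C t * X, ?_, ⟨0, by simp⟩, ?_⟩
  · have hq' := congrArg (C : k → k[X]) hq
    have hc' := congrArg (C : k → k[X]) hc
    simp only [map_add, map_mul, map_pow, map_zero] at hq' hc'
    simp only [G, Coef.map]
    linear_combination X ^ 2 * hq' + X ^ 3 * hc'
  · rcases hst with h | h
    · right; left
      exact mul_ne_zero (C_ne_zero.2 h) X_ne_zero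
    · right; right
      exact mul_ne_zero (C_ne_zero.2 h) X_ne_zero

/-- The tangent section is an irreducible cubic curve. -/
theorem case_tangent [IsAlgClosed K]
    (hcop : ∀ s t : K, (s ≠ 0 ∨ t ≠ 0) →
      algebraMap k K a.q0 * s ^ 2 + algebraMap k K a.q1 * s * t + algebraMap k K a.q2 * t ^ 2 = 0 →
      algebraMap k K a.c0 * s ^ 3 + algebraMap k K a.c1 * s ^ 2 * t +
        algebraMap k K a.c2 * s * t ^ 2 + algebraMap k K a.c3 * t ^ 3 ≠ 0)
    (hq : a.q0 ≠ 0 ∨ a.q1 ≠ 0 ∨ a.q2 ≠ 0) :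
    HasCurve K a := by
  by_cases h0 : a.q0 = 0
  · refine ⟨-(C a.c0 + C a.c1 * X + C a.c2 * X ^ 2 + C a.c3 * X ^ 3), 0,
      C a.q0 + C a.q1 * X + C a.q2 * X ^ 2, X * (C a.q0 + C a.q1 * X + C a.q2 * X ^ 2), ?_,
      ⟨0, ?_⟩, ?_⟩
    · simp only [G, Coef.map]
      ring
    · refine ⟨?_, by simp, by simp [h0], by simp⟩
      have h1 := hcop 1 0 (Or.inl one_ne_zero) (by simp [h0])
      simp at h1
      simp [h1]
    · right; left
      intro h
      rcases hq with h1 | h1 | h1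
      · exact h1 h0
      · have h2 := congrArg (fun p => coeff p 1) h
        simp [coeff_X, coeff_C] at h2
        exact h1 h2
      · have h2 := congrArg (fun p => coeff p 2) h
        simp [coeff_X, coeff_C] at h2
        exact h1 h2
  · obtain ⟨t, ht⟩ : ∃ t : K, aeval t (C a.q0 * X ^ 2 + C a.q1 * X + C a.q2) = 0 := by
      apply IsAlgClosed.exists_aeval_eq_zero
      rw [degree_quadratic h0]
      decide
    have ht' : algebraMap k K a.q0 * t ^ 2 + algebraMap k K a.q1 * t + algebraMap k K a.q2 = 0 := by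
      simpa using ht
    refine ⟨-(C a.c0 * X ^ 3 + C a.c1 * X ^ 2 + C a.c2 * X + C a.c3), 0,
      X * (C a.q0 * X ^ 2 + C a.q1 * X + C a.q2), C a.q0 * X ^ 2 + C a.q1 * X + C a.q2, ?_,
      ⟨t, ?_⟩, ?_⟩
    · simp only [G, Coef.map]
      ring
    · refine ⟨?_, by simp, by simp [ht'], by simp [ht']⟩
      have h1 := hcop t 1 (Or.inr one_ne_zero) (by linear_combination ht')
      intro h2
      apply h1
      have h3 : algebraMap k K a.c0 * t ^ 3 + algebraMap k K a.c1 * t ^ 2 +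
        algebraMap k K a.c2 * t + algebraMap k K a.c3 = 0 := by
        rw [map_neg, neg_eq_zero] at h2
        simpa using h2
      linear_combination h3
    · right; right
      intro h
      have h2 := congrArg (fun p => coeff p 2) h
      simp [coeff_X, coeff_C] at h2
      exact h0 h2

end cases

end Q53.CubicCurve
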