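import Pool.Agent.Q53.CubicCurve.CaseD

/-!
Reduction of a general smooth cubic surface with a rational point to the normal form.
-/

set_option autoImplicit false

open MvPolynomial

namespace Q53.CubicCurve

section tensor

variable {R : Type*} [CommRing R]

theorem exists_single (d : Fin 4 →₀ ℕ) (n : ℕ) (h : d.degree = n + 1) :
    ∃ (i : Fin 4) (d' : Fin 4 →₀ ℕ), d = Finsupp.single i 1 + d' ∧ d'.degree = n := by
  have hd : d ≠ 0 := by
    rintro rfl
    simp at h
  obtain ⟨i, hi⟩ := Finsupp.ne_iff.1 hd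
  have h1 : Finsupp.single i 1 ≤ d := by
    rw [Finsupp.single_le_iff]
    exact Nat.one_le_iff_ne_zero.2 hi
  refine ⟨i, d - Finsupp.single i 1, (add_tsub_cancel_of_le h1).symm, ?_⟩
  have h2 := congrArg Finsupp.degree (add_tsub_cancel_of_le h1)
  rw [map_add, h, Finsupp.degree_single] at h2
  omega

/-- A cubic form is given by a tensor. -/
theorem exists_tensor (F : MvPolynomial (Fin 4) R) (hF : F.IsHomogeneous 3) :
    ∃ a : Fin 4 → Fin 4 → Fin 4 → R,
      F = ∑ i, ∑ j, ∑ l, C (a i j l) * (X i * X j * X l) := by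
  let W : Submodule R (MvPolynomial (Fin 4) R) :=
    { carrier := {F | ∃ a : Fin 4 → Fin 4 → Fin 4 → R,
        F = ∑ i, ∑ j, ∑ l, C (a i j l) * (X i * X j * X l)}
      add_mem' := by
        rintro F G ⟨a, rfl⟩ ⟨b, rfl⟩
        refine ⟨fun i j l => a i j l + b i j l, ?_⟩
        simp only [map_add, add_mul, Finset.sum_add_distrib]
      zero_mem' := ⟨fun _ _ _ => 0, by simp⟩
      smul_mem' := by
        rintro c F ⟨a, rfl⟩
        refine ⟨fun i j l => c * a i j l, ?_⟩
        simp only [map_mul, smul_eq_C_mul, Finset.mul_sum, mul_assoc] }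
  have hmem : F ∈ W := by
    rw [F.as_sum]
    apply Submodule.sum_mem
    intro d hd
    have hdeg : d.degree = 3 := by
      have := hF (mem_support_iff.1 hd)
      rw [Finsupp.degree_eq_weight_one]
      exact this
    obtain ⟨i, d1, rfl, h1⟩ := exists_single d 2 hdeg
    obtain ⟨j, d2, rfl, h2⟩ := exists_single d1 1 h1
    obtain ⟨l, d3, rfl, h3⟩ := exists_single d2 0 h2
    have h3' : d3 = 0 := (Finsupp.degree_eq_zero_iff d3).1 h3
    subst h3'
    refine ⟨fun i' j' l' => if i' = i ∧ j' = j ∧ l' = l then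
      coeff (Finsupp.single i 1 + (Finsupp.single j 1 + (Finsupp.single l 1 + 0))) F else 0, ?_⟩
    rw [Finset.sum_eq_single i, Finset.sum_eq_single j, Finset.sum_eq_single l]
    · simp only [and_self, if_true]
      rw [X, X, X, monomial_mul, monomial_mul, C_mul_monomial]
      simp [add_assoc]
    · intro b _ hb
      simp [hb]
    · simp
    · intro b _ hb
      simp [hb]
    · simp
    · intro b _ hb
      simp [hb]
    · simp
  exact hmem

end tensor

section normal

variable {k : Type*} [Field k]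

/-- The chain rule. -/
theorem pderiv_aeval' {σ τ R : Type*} [CommRing R] [Fintype σ] (g : σ → MvPolynomial τ R)
    (m : τ) (p : MvPolynomial σ R) :
    pderiv m (aeval g p) = ∑ i, aeval g (pderiv i p) * pderiv m (g i) := by
  classical
  induction p using MvPolynomial.induction_on with
  | C a => simp [← MvPolynomial.algebraMap_eq]
  | add p q hp hq => simp only [map_add, hp, hq, add_mul, Finset.sum_add_distrib]
  | mul_X p i hp =>
    rw [map_mul, Derivation.leibniz, hp]
    simp only [Derivation.leibniz, map_add, smul_eq_mul, map_mul, aeval_X, pderiv_X,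
      Pi.single_apply, add_mul, Finset.sum_add_distrib]
    congr 1
    · rw [Finset.sum_eq_single i]
      · simp
      · intro b _ hb
        simp [Ne.symm hb]
      · simp
    · rw [Finset.mul_sum]
      apply Finset.sum_congr rfl
      intro j _
      ring

/-- The normal form of a cubic form at the point `(1, 0, 0, 0)`. -/
theorem normal_form (F : MvPolynomial (Fin 4) k) (hF : F.IsHomogeneous 3)
    (h : eval ![1, 0, 0, 0] F = 0) (h1 : eval ![1, 0, 0, 0] (pderiv 1 F) = 1)
    (h2 : eval ![1, 0, 0, 0] (pderiv 2 F) = 0) (h3 : eval ![1, 0, 0, 0] (pderiv 3 F) = 0) :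
    ∃ a : Coef k, F = G (a.map C) (X 0) (X 1) (X 2) (X 3) := by
  obtain ⟨a, ha⟩ := exists_tensor F hF
  have e0 : a 0 0 0 = 0 := by
    rw [ha] at h
    simpa [Fin.sum_univ_four] using h
  have e1 : a 0 0 1 + a 0 1 0 + a 1 0 0 = 1 := by
    rw [ha] at h1
    simp [Fin.sum_univ_four, Derivation.leibniz, pderiv_X] at h1
    linear_combination h1
  have e2 : a 0 0 2 + a 0 2 0 + a 2 0 0 = 0 := by
    rw [ha] at h2
    simp [Fin.sum_univ_four, Derivation.leibniz, pderiv_X] at h2
    linear_combination h2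
  have e3 : a 0 0 3 + a 0 3 0 + a 3 0 0 = 0 := by
    rw [ha] at h3
    simp [Fin.sum_univ_four, Derivation.leibniz, pderiv_X] at h3
    linear_combination h3
  have c0 : (C (a 0 0 0) : MvPolynomial (Fin 4) k) = 0 := by rw [e0, map_zero]
  have c1 : (C (a 0 0 1) + C (a 0 1 0) + C (a 1 0 0) : MvPolynomial (Fin 4) k) = 1 := by
    rw [← map_add, ← map_add, e1, map_one]
  have c2 : (C (a 0 0 2) + C (a 0 2 0) + C (a 2 0 0) : MvPolynomial (Fin 4) k) = 0 := by
    rw [← map_add, ← map_add, e2, map_zero]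
  have c3 : (C (a 0 0 3) + C (a 0 3 0) + C (a 3 0 0) : MvPolynomial (Fin 4) k) = 0 := by
    rw [← map_add, ← map_add, e3, map_zero]
  refine ⟨⟨a 0 1 1 + a 1 0 1 + a 1 1 0,
    a 0 1 2 + a 0 2 1 + a 1 0 2 + a 1 2 0 + a 2 0 1 + a 2 1 0,
    a 0 1 3 + a 0 3 1 + a 1 0 3 + a 1 3 0 + a 3 0 1 + a 3 1 0,
    a 0 2 2 + a 2 0 2 + a 2 2 0,
    a 0 2 3 + a 0 3 2 + a 2 0 3 + a 2 3 0 + a 3 0 2 + a 3 2 0,
    a 0 3 3 + a 3 0 3 + a 3 3 0,
    a 1 1 1,
    a 1 1 2 + a 1 2 1 + a 2 1 1,
    a 1 1 3 + a 1 3 1 + a 3 1 1,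
    a 1 2 2 + a 2 1 2 + a 2 2 1,
    a 1 2 3 + a 1 3 2 + a 2 1 3 + a 2 3 1 + a 3 1 2 + a 3 2 1,
    a 1 3 3 + a 3 1 3 + a 3 3 1,
    a 2 2 2,
    a 2 2 3 + a 2 3 2 + a 3 2 2,
    a 2 3 3 + a 3 2 3 + a 3 3 2,
    a 3 3 3⟩, ?_⟩
  rw [ha]
  simp only [Fin.sum_univ_four, G, Coef.map, map_add]
  linear_combination X 0 ^ 3 * c0 + X 0 ^ 2 * X 1 * c1 + X 0 ^ 2 * X 2 * c2 + X 0 ^ 2 * X 3 * c3

end normal

section basis

variable {k : Type*} [Field k]

/-- A basis adapted to a point and to a linear form that vanishes at the point. -/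
theorem exists_basis (x φ : Fin 4 → k) (hx : x ≠ 0) (hφ : φ ≠ 0) (hφx : ∑ i, φ i * x i = 0) :
    ∃ b : Matrix (Fin 4) (Fin 4) k, IsUnit b ∧ b 0 = x ∧ ∑ i, φ i * b 1 i = 1 ∧
      ∑ i, φ i * b 2 i = 0 ∧ ∑ i, φ i * b 3 i = 0 := by
  let f : (Fin 4 → k) →ₗ[k] k := ∑ i, φ i • LinearMap.proj i
  have hf : ∀ v, f v = ∑ i, φ i * v i := by
    intro v; simp [f]
  obtain ⟨j, hj⟩ := Function.ne_iff.1 hφ
  have hj' : φ j ≠ 0 := hj
  obtain ⟨u, hu⟩ : ∃ u, f u = 1 := by
    refine ⟨Pi.single j (φ j)⁻¹, ?_⟩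
    rw [hf, Finset.sum_eq_single j]
    · simp [hj']
    · intro i _ hi; simp [hi]
    · simp
  have hfin : Module.finrank k (LinearMap.ker f) = 3 := by
    have h1 := f.finrank_range_add_finrank_ker
    have h2 : LinearMap.range f = ⊤ := by
      rw [LinearMap.range_eq_top]
      intro c
      exact ⟨c • u, by rw [map_smul, hu]; simp⟩
    rw [h2, finrank_top] at h1
    simp at h1
    omega
  let x' : LinearMap.ker f := ⟨x, by rw [LinearMap.mem_ker, hf, hφx]⟩
  have hx' : x' ≠ 0 := by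
    intro h
    exact hx (congrArg Subtype.val h)
  have l1 : LinearIndependent k ![x'] := by
    rw [linearIndependent_unique_iff]
    exact hx'
  obtain ⟨y, l2⟩ := exists_linearIndependent_cons_of_lt_finrank l1 (by rw [hfin]; norm_num)
  obtain ⟨z, l3⟩ := exists_linearIndependent_cons_of_lt_finrank l2 (by rw [hfin]; norm_num)
  have l4 := l3.map' (LinearMap.ker f).subtype (Submodule.ker_subtype _)
  have l5 : LinearIndependent k (Fin.cons u ((LinearMap.ker f).subtype ∘
      (Fin.cons z (Fin.cons y ![x'])) ) : Fin 4 → (Fin 4 → k)) := by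
    rw [linearIndependent_finCons]
    refine ⟨l4, ?_⟩
    intro hmem
    have : Submodule.span k (Set.range ((LinearMap.ker f).subtype ∘
      (Fin.cons z (Fin.cons y ![x'])))) ≤ LinearMap.ker f := by
      rw [Submodule.span_le]
      rintro _ ⟨i, rfl⟩
      exact Subtype.prop _
    have h0 := this hmem
    rw [LinearMap.mem_ker, hu] at h0
    exact one_ne_zero h0
  have l6 := l5.comp ![3, 0, 1, 2] (by decide)
  refine ⟨Matrix.of ![x, u, z.1, y.1], ?_, rfl, ?_, ?_, ?_⟩
  · rw [← Matrix.linearIndependent_rows_iff_isUnit]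
    convert l6 using 1
    ext i j
    fin_cases i <;> rfl
  · rw [← hf]; exact hu
  · rw [← hf]; exact z.2
  · rw [← hf]; exact y.2

theorem inj_left (b : Matrix (Fin 4) (Fin 4) k) (hb : IsUnit b) {S : Type*} [CommRing S]
    [Algebra k S] (y : Fin 4 → S) (h : ∀ i, ∑ m, algebraMap k S (b m i) * y m = 0) : y = 0 := by
  have hB : IsUnit (b.map (algebraMap k S)) := hb.map (algebraMap k S).mapMatrix
  apply Matrix.vecMul_injective_of_isUnit hB
  simp only [Matrix.zero_vecMul]
  ext i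
  rw [Matrix.vecMul, dotProduct, Pi.zero_apply, ← h i]
  exact Finset.sum_congr rfl fun m _ => by rw [Matrix.map_apply, mul_comm]

theorem inj_right (b : Matrix (Fin 4) (Fin 4) k) (hb : IsUnit b) {S : Type*} [CommRing S]
    [Algebra k S] (y : Fin 4 → S) (h : ∀ i, ∑ m, y m * algebraMap k S (b i m) = 0) : y = 0 := by
  have hB : IsUnit (b.map (algebraMap k S)) := hb.map (algebraMap k S).mapMatrix
  apply Matrix.mulVec_injective_of_isUnit hB
  simp only [Matrix.mulVec_zero]
  ext i
  rw [Matrix.mulVec, dotProduct, Pi.zero_apply, ← h i]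
  exact Finset.sum_congr rfl fun m _ => by rw [Matrix.map_apply, mul_comm]

end basis

end Q53.CubicCurve
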